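import Pool.Agent.Run7.h874.T550.PD2

/-!
# Piece D: passage of the hub, final form (helper550)
-/

set_option autoImplicit false

namespace Run7.h550.SY

open Set Filter Topology Function Complex
open Run7.h874

/-- constants of the passage -/
theorem consts {S : ℂ} {δ r ϵ : ℝ} (hal : 0.632 < al) (hS0 : 0 < ‖S‖) (hS : ‖S‖ ≤ 1 / 2000)
    (hδ' : 10 * ‖S‖ ^ 2 ≤ δ) (hr0 : 0 < r) (hr : r ≤ 1 / 10 ^ 6) (hϵr : 64 * r ≤ ϵ) (hϵ1 : ϵ ≤ 1) :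
    ∃ E τ σ m ν : ℝ, 0 < E ∧ E ≤ 1 / 10 ^ 12 ∧ 0 < τ ∧ E = Real.exp (-(al * τ)) ∧
      σ = 1.0155 * ‖S‖ * E ∧ 0 < σ ∧ σ ≤ 1 / 2000 ∧ m = 0.97 * δ * E / 10 ^ 6 ∧ 0 < m ∧
      10 ^ 6 * σ ^ 2 ≤ m ∧ 2 * σ + 10 * r ^ 2 ≤ ϵ * r ∧ σ < r ∧ 0 < ν ∧
      ν = ‖S‖ ^ 3 * E ^ 2 / 10 ^ 7 := by
  have hϵ0 : 0 < ϵ := by linarith
  have hδ0 : 0 < δ := lt_of_lt_of_le (by positivity) hδ'
  set E := min (1 / 10 ^ 16) (ϵ * r / 100) with hE
  have hE0 : 0 < E := lt_min (by norm_num) (by positivity)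
  have hE1 : E ≤ 1 / 10 ^ 16 := min_le_left _ _
  have hE2 : E ≤ ϵ * r / 100 := min_le_right _ _
  have halpos : 0 < al := by linarith
  have hσ1 : 1.0155 * ‖S‖ * E ≤ E / 1000 := by
    have : 1.0155 * ‖S‖ ≤ 1 / 1000 := by linarith
    have := mul_le_mul_of_nonneg_right this hE0.le
    linarith
  refine ⟨E, -Real.log E / al, 1.0155 * ‖S‖ * E, 0.97 * δ * E / 10 ^ 6, ‖S‖ ^ 3 * E ^ 2 / 10 ^ 7,
    hE0, by linarith, ?_, ?_, rfl, by positivity, by linarith, rfl, by positivity, ?_, ?_, ?_,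
    by positivity, rfl⟩
  · apply div_pos _ halpos
    rw [neg_pos]
    exact Real.log_neg hE0 (by linarith)
  · rw [mul_div_cancel₀ _ halpos.ne', neg_neg, Real.exp_log hE0]
  · have e1 : (10:ℝ) ^ 6 * (1.0155 * ‖S‖ * E) ^ 2 = 10 ^ 6 * 1.0155 ^ 2 * E * (‖S‖ ^ 2 * E) := by ring
    have e2 : 0.97 * (10 * ‖S‖ ^ 2) * E / 10 ^ 6 ≤ 0.97 * δ * E / 10 ^ 6 := by gcongr
    have e3 : 0.97 * (10 * ‖S‖ ^ 2) * E / 10 ^ 6 = 9.7 / 10 ^ 6 * (‖S‖ ^ 2 * E) := by ring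
    rw [e1]
    refine le_trans ?_ e2
    rw [e3]
    apply mul_le_mul_of_nonneg_right _ (by positivity)
    have : 10 ^ 6 * 1.0155 ^ 2 * E ≤ 10 ^ 6 * 1.0155 ^ 2 * (1 / 10 ^ 16) :=
      mul_le_mul_of_nonneg_left hE1 (by positivity)
    refine this.trans ?_
    norm_num
  · have e1 : 10 * r ^ 2 ≤ ϵ * r / 6 := by
      have : 64 * r * r ≤ ϵ * r := mul_le_mul_of_nonneg_right hϵr hr0.le
      have e2 : r ^ 2 = r * r := sq r
      have e3 : 0 ≤ r * r := by positivity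
      linarith
    have e4 : 0 < ϵ * r := by positivity
    linarith
  · have e4 : ϵ * r ≤ 1 * r := mul_le_mul_of_nonneg_right hϵ1 hr0.le
    linarith

theorem polar_hub {u s S : ℂ} {τ E : ℝ} (hS0 : 0 < ‖S‖) (hs0 : 0 < ‖s‖)
    (hE : E = Real.exp (-(al * τ))) :
    u = ‖u‖ * exp (((arg S + be * τ + arg (s * exp ((starRingEnd ℂ) lam * τ) * (starRingEnd ℂ) S) +
      arg (u * (starRingEnd ℂ) s) : ℝ) : ℂ) * I) := by
  have hE0 : 0 < E := hE ▸ Real.exp_pos _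
  apply polar (c := E / (‖s‖ ^ 2 * ‖S‖ ^ 2)) (by positivity)
  have h1 : exp ((starRingEnd ℂ) lam * τ) * exp (((be * τ : ℝ) : ℂ) * I) * (E : ℂ) = 1 := by
    rw [hE, Complex.ofReal_exp, ← Complex.exp_add, ← Complex.exp_add, Complex.exp_eq_one_iff]
    refine ⟨0, ?_⟩
    have h2 : (starRingEnd ℂ) lam = (al : ℂ) - (be : ℂ) * I := by
      apply Complex.ext <;> simp [lam]
    rw [h2]
    push_cast
    ring
  have hsn : (‖s‖ : ℂ) ≠ 0 := by exact_mod_cast hs0.ne'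
  have hSn : (‖S‖ : ℂ) ≠ 0 := by exact_mod_cast hS0.ne'
  have h3 : (starRingEnd ℂ) s * s = (‖s‖ : ℂ) ^ 2 := by
    rw [← Complex.normSq_eq_conj_mul_self, Complex.normSq_eq_norm_sq]
    push_cast
    rfl
  have h4 : (starRingEnd ℂ) S * S = (‖S‖ : ℂ) ^ 2 := by
    rw [← Complex.normSq_eq_conj_mul_self, Complex.normSq_eq_norm_sq]
    push_cast
    rfl
  have h5 : u * (starRingEnd ℂ) s * (s * exp ((starRingEnd ℂ) lam * τ) * (starRingEnd ℂ) S) * S *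
      exp (((be * τ : ℝ) : ℂ) * I) = u * ((starRingEnd ℂ) s * s) * ((starRingEnd ℂ) S * S) *
      (exp ((starRingEnd ℂ) lam * τ) * exp (((be * τ : ℝ) : ℂ) * I)) := by ring
  rw [h5, h3, h4]
  push_cast
  have h6 : (E : ℂ) / ((‖s‖ : ℂ) ^ 2 * (‖S‖ : ℂ) ^ 2) * (u * (‖s‖ : ℂ) ^ 2 * (‖S‖ : ℂ) ^ 2 *
      (exp ((starRingEnd ℂ) lam * τ) * exp ((be : ℂ) * τ * I))) =
      u * (exp ((starRingEnd ℂ) lam * τ) * exp ((be : ℂ) * τ * I) * (E : ℂ)) := by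
    field_simp
  rw [h6]
  have h7 : exp ((starRingEnd ℂ) lam * τ) * exp ((be : ℂ) * τ * I) * (E : ℂ) = 1 := by
    rw [← h1]
    push_cast
    rfl
  rw [h7, mul_one]

theorem arg_contOn {f : ℝ → ℂ} {a b : ℝ} (hf : ContinuousOn f (Icc a b))
    (h : ∀ p ∈ Icc a b, 0 < (f p).re) : ContinuousOn (fun p => arg (f p)) (Icc a b) := by
  intro p hp
  have h1 : ContinuousAt arg (f p) := Complex.continuousAt_arg (Complex.mem_slitPlane_iff.2 (Or.inl (h p hp)))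
  exact h1.comp_continuousWithinAt (hf p hp)

theorem pD0 (hA3 : StmtA3) (hC2 : StmtC2) (hC5 : StmtC5) (hC6 : StmtC6) (hC7 : StmtC7)
    {S : ℂ} {δ r ϵ θ Δ E τ σ m ν : ℝ} (hS0 : 0 < ‖S‖) (hS : ‖S‖ ≤ 1 / 2000)
    (hδ' : 10 * ‖S‖ ^ 2 ≤ δ) (hr0 : 0 < r) (hr : r ≤ 1 / 10 ^ 6) (hΔ0 : 0 < Δ) (hΔ1 : Δ ≤ 1 / 10)
    (hE0 : 0 < E) (hE1 : E ≤ 1 / 10 ^ 12) (hτ : 0 < τ) (hE : E = Real.exp (-(al * τ)))
    (hσ : σ = 1.0155 * ‖S‖ * E) (hσ0 : 0 < σ) (hσ1 : σ ≤ 1 / 2000) (hm : m = 0.97 * δ * E / 10 ^ 6)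
    (hm0 : 0 < m) (hσm : 10 ^ 6 * σ ^ 2 ≤ m) (hσr : 2 * σ + 10 * r ^ 2 ≤ ϵ * r) (hσr' : σ < r)
    (hν : ν = ‖S‖ ^ 3 * E ^ 2 / 10 ^ 7) {φ : ℝ → P2 → P2} (hφ : IsFlow (f0 rho0) φ) {a b : ℝ}
    {x : ℝ → P2} (hab : a < b) (hx : Continuous x)
    (hen : ∀ p ∈ Icc a b, EntryC S (x p) ∧ |En (x p)| ≤ ν)
    (hcr : Cross (fun p => ups (x p)) a b (-δ) δ) :
    ∃ (a' b' : ℝ) (T ψ : ℝ → ℝ), a ≤ a' ∧ a' < b' ∧ b' ≤ b ∧ ContinuousOn T (Icc a' b') ∧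
      ContinuousOn ψ (Icc a' b') ∧ Ends ψ a' b' (θ - Δ) (θ + Δ) ∧
      ∀ p ∈ Icc a' b', T p ∈ Icc 0 (τ + 2 * r / m) ∧ |ψ p - θ| ≤ Δ ∧
        OutC r ϵ (ψ p) (φ (T p) (x p)) ∧
        ∀ t ∈ Icc 0 (T p), ‖(φ t (x p)).1 - hubZ‖ ≤ 1/100 ∧ ‖(φ t (x p)).2‖ ≤ 1/100 := by
  have hC5' := hC5
  obtain ⟨⟨hal, hal'⟩, ⟨hbe, -⟩, -, -⟩ := hC5'
  have hδ0 : 0 < δ := lt_of_lt_of_le (by positivity) hδ'
  obtain ⟨D, hD⟩ : ∃ D, D = 0.99 * δ * ‖S‖ := ⟨_, rfl⟩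
  -- `δ ≤ ‖S‖ / 10`
  have hups : ∀ p ∈ Icc a b, |ups (x p)| ≤ ‖S‖ / 10 := by
    intro p hp
    refine le_trans ?_ (hen p hp).1.2
    unfold ups
    rw [abs_div, abs_norm]
    apply div_le_of_le_mul₀ (norm_nonneg _) (norm_nonneg _)
    have := Complex.abs_re_le_norm (U (x p) * (starRingEnd ℂ) (Sg (x p)))
    rwa [norm_mul, RCLike.norm_conj] at this
  have hδ : δ ≤ ‖S‖ / 10 := by
    rcases hcr with ⟨h1, h2⟩ | ⟨h1, h2⟩
    · exact (h2.trans (le_abs_self _)).trans (hups b ⟨hab.le, le_rfl⟩)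
    · exact (h1.trans (le_abs_self _)).trans (hups a ⟨le_rfl, hab.le⟩)
  obtain ⟨a2, b2, d1, d2, d3, d4, d5⟩ := phase1 hC2 hC5 hC6 hC7 hS0 hS hδ hδ' hτ hD
    (by rw [hν, hE]) hφ hab hx hen hcr
  -- states at time `τ`
  obtain ⟨y, hy⟩ : ∃ y : ℝ → P2, y = fun p => φ τ (x p) := ⟨_, rfl⟩
  have hyp : ∀ p, φ τ (x p) = y p := fun p => by rw [hy]
  have hyc : Continuous y := by
    rw [hy]
    have h0 : Continuous fun p : ℝ => ((τ, x p) : ℝ × P2) := continuous_const.prodMk hx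
    exact hφ.cont.comp h0
  have hττ : τ ∈ Icc 0 τ := ⟨hτ.le, le_rfl⟩
  have hsub : ∀ p ∈ Icc a2 b2, p ∈ Icc a b := fun p hp => ⟨d1.trans hp.1, hp.2.trans d3⟩
  have hwk : ∀ p ∈ Icc a2 b2, ∀ t ∈ Icc 0 τ, ‖U (φ t (x p))‖ ≤ 1 / 250 ∧ ‖Sg (φ t (x p))‖ ≤ 1 / 250 := by
    intro p hp t ht
    obtain ⟨q1, q2⟩ := (d5 p hp).2 t ht
    have h1 := wk (zt := ‖(φ t (x p)).1 - hubZ‖) hS0 hS hal ht.1
      ((hC2 ((φ t (x p)).1 - hubZ) (φ t (x p)).2).2.2.2.2.1) (hen p (hsub p hp)).1.1 q1 q2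
    exact ⟨h1.2.2.2.1, h1.2.2.2.2.1⟩
  have hend : ∀ p ∈ Icc a2 b2, 0.9845 * ‖S‖ * E ≤ ‖Sg (y p)‖ ∧ ‖Sg (y p)‖ ≤ 1.0155 * ‖S‖ * E ∧
      0 < (Sg (y p) * exp ((starRingEnd ℂ) lam * τ) * (starRingEnd ℂ) S).re ∧
      0 < (U (y p) * (starRingEnd ℂ) (Sg (y p))).re ∧
      |(U (y p) * (starRingEnd ℂ) (Sg (y p))).im| ≤ (U (y p) * (starRingEnd ℂ) (Sg (y p))).re ∧
      0.97 * δ * E / 10 ^ 6 ≤ ‖U (y p)‖ ∧
      (U (y p) * (starRingEnd ℂ) (Sg (y p))).re = Yf φ τ (x p) * E ^ 2 := by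
    intro p hp
    obtain ⟨q1, q2⟩ := (d5 p hp).2 τ hττ
    have henp := enb hC2 hC6 hC7 hφ (hen p (hsub p hp)).2 τ hτ.le (fun q hq => hwk p hp q hq)
    have hYp := (d5 p hp).1
    rw [Yf_def, hyp, hD] at hYp
    rw [Yf_def, hyp]
    rw [hyp] at q1 q2
    have henp' : |(U (y p) * (starRingEnd ℂ) (Sg (y p))).im| ≤ ν + 1.05 * ‖(y p).1 - hubZ‖ ^ 3 := by
      rw [← hyp]; exact henp
    exact end1 (s0 := Sg (x p)) hS0 hS hal hτ.le hE hE1 hδ' (hen p (hsub p hp)).1.1 q1 q2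
      (norm_nonneg ((y p).1 - hubZ)) ((hC2 ((y p).1 - hubZ) (y p).2).2.2.2.2.1) henp'
      (le_of_eq hν) hYp
  have hy2 : ∀ p ∈ Icc a2 b2, m ≤ ‖U (y p)‖ ∧ ‖U (y p)‖ < r ∧ ‖Sg (y p)‖ ≤ σ := by
    intro p hp
    obtain ⟨e1, e2, -, -, -, e6, -⟩ := hend p hp
    obtain ⟨q1, q2⟩ := (d5 p hp).2 τ hττ
    rw [hyp] at q2
    rw [← hσ] at e2
    refine ⟨by rw [hm]; exact e6, ?_, e2⟩
    have := norm_nonneg (Sg (y p))
    linarith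
  obtain ⟨T, Z, f1, f2, f3⟩ := phase2 hA3 hC2 hal hC6 hr0 hr hm0 hσ0 hσ1 hσm hφ d2.le hyc hy2
  -- the phase
  obtain ⟨ψ, hψ⟩ : ∃ ψ : ℝ → ℝ, ψ = fun p => arg S + be * τ +
      arg (Sg (y p) * exp ((starRingEnd ℂ) lam * τ) * (starRingEnd ℂ) S) +
      arg (U (y p) * (starRingEnd ℂ) (Sg (y p))) + (Z p).im := ⟨_, rfl⟩
  have hUy : Continuous fun p => U (y p) := U_cont.comp hyc
  have hSy : Continuous fun p => Sg (y p) := Sg_cont.comp hyc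
  have hψc : ContinuousOn ψ (Icc a2 b2) := by
    rw [hψ]
    have g1 : ContinuousOn (fun p => arg (Sg (y p) * exp ((starRingEnd ℂ) lam * τ) *
        (starRingEnd ℂ) S)) (Icc a2 b2) := by
      apply arg_contOn
      · exact ((hSy.mul continuous_const).mul continuous_const).continuousOn
      · exact fun p hp => (hend p hp).2.2.1
    have g2 : ContinuousOn (fun p => arg (U (y p) * (starRingEnd ℂ) (Sg (y p)))) (Icc a2 b2) := by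
      apply arg_contOn
      · exact (hUy.mul (Complex.continuous_conj.comp hSy)).continuousOn
      · exact fun p hp => (hend p hp).2.2.2.1
    exact ((continuousOn_const.add g1).add g2).add (Complex.continuous_re.comp_continuousOn
      (continuousOn_const.mul f2) |>.congr fun p _ => by
        show (Z p).im = ((-I) * Z p).re
        simp)
  have hspos : ∀ p ∈ Icc a2 b2, 0 < ‖Sg (y p)‖ := fun p hp =>
    lt_of_lt_of_le (by positivity) (hend p hp).1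
  have hupos : ∀ p ∈ Icc a2 b2, 0 < ‖U (y p)‖ := fun p hp => hm0.trans_le (hy2 p hp).1
  have hexp : ∀ p ∈ Icc a2 b2, ‖U (y p)‖ * Real.exp (Z p).re = r := by
    intro p hp
    obtain ⟨-, -, g3, g4, -⟩ := f3 p hp
    rw [← Complex.norm_exp, ← norm_mul, ← g4, g3]
  have hval : ∀ p ∈ Icc a2 b2, U (φ (T p) (y p)) = r * exp (ψ p * I) := by
    intro p hp
    obtain ⟨-, -, g3, g4, -⟩ := f3 p hp
    have g5 := polar_hub (u := U (y p)) (s := Sg (y p)) (S := S) (τ := τ) hS0 (hspos p hp) hE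
    have g6 : exp (Z p) = (Real.exp (Z p).re : ℂ) * exp ((Z p).im * I) := by
      rw [Complex.ofReal_exp, ← Complex.exp_add, Complex.re_add_im]
    rw [g4, g6]
    conv_lhs => rw [g5]
    rw [← hexp p hp, hψ]
    push_cast
    rw [show ((arg S : ℂ) + be * τ + arg (Sg (y p) * exp ((starRingEnd ℂ) lam * τ) *
      (starRingEnd ℂ) S) + arg (U (y p) * (starRingEnd ℂ) (Sg (y p))) + (Z p).im) * I =
      ((arg S : ℂ) + be * τ + arg (Sg (y p) * exp ((starRingEnd ℂ) lam * τ) *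
      (starRingEnd ℂ) S) + arg (U (y p) * (starRingEnd ℂ) (Sg (y p)))) * I + (Z p).im * I by ring,
      Complex.exp_add]
    ring
  -- the range of the phase
  have hpair : ∀ pL ∈ Icc a2 b2, ∀ pH ∈ Icc a2 b2, Yf φ τ (x pL) = D / 10 ^ 6 → Yf φ τ (x pH) = D →
      ψ pH + (2 * Real.pi + 2 * Δ) ≤ ψ pL := by
    intro pL hL pH hH eL eH
    obtain ⟨l1, l2, l3, l4, l5, l6, l7⟩ := hend pL hL
    obtain ⟨h1, h2, h3, h4, h5, h6, h7⟩ := hend pH hH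
    rw [eL] at l7
    rw [eH] at h7
    have hrt := ratio hS0 hE0 l1 h2 l5 l7 h7
    rw [hψ]
    exact range_psi hal hal' hbe hΔ1 hr0 (hupos pL hL) (hupos pH hH) hrt (hexp pL hL) (hexp pH hH)
      (f3 pL hL).2.2.2.2.1 (f3 pH hH).2.2.2.2.1
      (Complex.abs_arg_le_pi_div_two_iff.2 l4.le) (Complex.abs_arg_le_pi_div_two_iff.2 l3.le)
      (Complex.abs_arg_le_pi_div_two_iff.2 h4.le) (Complex.abs_arg_le_pi_div_two_iff.2 h3.le)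
  have ha2 : a2 ∈ Icc a2 b2 := ⟨le_rfl, d2.le⟩
  have hb2 : b2 ∈ Icc a2 b2 := ⟨d2.le, le_rfl⟩
  obtain ⟨k, hk⟩ : ∃ k : ℤ, Cross ψ a2 b2 (θ - Δ + 2 * Real.pi * k) (θ + Δ + 2 * Real.pi * k) := by
    rcases d4 with ⟨h1, h2⟩ | ⟨h1, h2⟩
    · obtain ⟨k, k1, k2⟩ := window (θ := θ) (hpair a2 ha2 b2 hb2 h1 h2)
      exact ⟨k, Or.inr ⟨k2, k1⟩⟩
    · obtain ⟨k, k1, k2⟩ := window (θ := θ) (hpair b2 hb2 a2 ha2 h2 h1)
      exact ⟨k, Or.inl ⟨k1, k2⟩⟩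
  obtain ⟨a3, b3, g1, g2, g3, g4, g5⟩ := selC d2.le hψc hk (by linarith)
  have hsub3 : ∀ p ∈ Icc a3 b3, p ∈ Icc a2 b2 := fun p hp => ⟨g1.trans hp.1, hp.2.trans g3⟩
  have hsub3' : Icc a3 b3 ⊆ Icc a2 b2 := hsub3
  refine ⟨a3, b3, fun p => τ + T p, fun p => ψ p - 2 * Real.pi * k, d1.trans g1, g2, g3.trans d3,
    continuousOn_const.add (f1.mono hsub3'), (hψc.mono hsub3').sub continuousOn_const, ?_,
    fun p hp => ?_⟩
  · rcases g4 with ⟨h1, h2⟩ | ⟨h1, h2⟩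
    · exact Or.inl ⟨by show ψ a3 - 2 * Real.pi * k = _; linarith,
        by show ψ b3 - 2 * Real.pi * k = _; linarith⟩
    · exact Or.inr ⟨by show ψ a3 - 2 * Real.pi * k = _; linarith,
        by show ψ b3 - 2 * Real.pi * k = _; linarith⟩
  · have hp2 := hsub3 p hp
    obtain ⟨q1, q2, q3, q4, q5, q6, q7⟩ := f3 p hp2
    have hshift : ∀ s, φ (τ + s) (x p) = φ s (y p) := by
      intro s
      rw [hφ.add, hyp]
    refine ⟨⟨by linarith, by linarith⟩, ?_, ⟨?_, ?_⟩, fun t ht => ?_⟩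
    · have := g5 p hp
      rw [abs_le]
      constructor <;> linarith [this.1, this.2]
    · rw [hshift, hval p hp2]
      congr 1
      have h1 : ((ψ p - 2 * Real.pi * k : ℝ) : ℂ) * I = ψ p * I - k * (2 * Real.pi * I) := by
        push_cast
        ring
      rw [h1, Complex.exp_sub, Complex.exp_int_mul_two_pi_mul_I, div_one]
    · rw [hshift]
      exact q6.trans hσr
    · rcases le_total t τ with h | h
      · obtain ⟨w1, w2⟩ := hwk p hp2 t ⟨ht.1, h⟩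
        exact near_of hC2 w1 w2
      · have h1 := hshift (t - τ)
        rw [add_sub_cancel] at h1
        rw [h1]
        exact q7 (t - τ) ⟨by linarith, by linarith [ht.2]⟩

theorem pD (hA3 : StmtA3) (hC2 : StmtC2) (hC5 : StmtC5) (hC6 : StmtC6) (hC7 : StmtC7) : StmtD := by
  intro S δ r ϵ θ Δ hS0 hS hδ hr0 hr hϵr hϵ1 hΔ0 hΔ1
  have hal := hC5.1.1
  obtain ⟨E, τ, σ, m, ν, c1, c2, c3, c4, c5, c6, c7, c8, c9, c10, c11, c12, c13, c14⟩ :=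
    consts hal hS0 hS hδ hr0 hr hϵr hϵ1
  refine ⟨ν, c13, τ + 2 * r / m, by positivity, fun φ hφ a b x hab hx hen hcr => ?_⟩
  obtain ⟨x', hx'⟩ : ∃ x' : ℝ → P2, x' = fun p => x (projIcc a b hab.le p) := ⟨_, rfl⟩
  have hx'c : Continuous x' := by
    rw [hx']
    exact hx.comp_continuous (continuous_subtype_val.comp continuous_projIcc)
      (fun p => (projIcc a b hab.le p).2)
  have hx'e : ∀ p ∈ Icc a b, x' p = x p := by
    intro p hp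
    rw [hx']
    show x (projIcc a b hab.le p) = x p
    rw [projIcc_of_mem hab.le hp]
  have ha : a ∈ Icc a b := ⟨le_rfl, hab.le⟩
  have hb : b ∈ Icc a b := ⟨hab.le, le_rfl⟩
  obtain ⟨a', b', T, ψ, e1, e2, e3, e4, e5, e6, e7⟩ := pD0 (θ := θ) hA3 hC2 hC5 hC6 hC7 hS0 hS hδ
    hr0 hr hΔ0 hΔ1 c1 c2 c3 c4 c5 c6 c7 c8 c9 c10 c11 c12 c14 hφ hab hx'c
    (fun p hp => by rw [hx'e p hp]; exact hen p hp)
    (by
      rcases hcr with ⟨h1, h2⟩ | ⟨h1, h2⟩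
      · exact Or.inl ⟨by show ups (x' a) ≤ _; rw [hx'e a ha]; exact h1,
          by show _ ≤ ups (x' b); rw [hx'e b hb]; exact h2⟩
      · exact Or.inr ⟨by show _ ≤ ups (x' a); rw [hx'e a ha]; exact h1,
          by show ups (x' b) ≤ _; rw [hx'e b hb]; exact h2⟩)
  refine ⟨a', b', T, ψ, e1, e2, e3, e4, e5, e6, fun p hp => ?_⟩
  have h1 := e7 p hp
  rw [hx'e p ⟨e1.trans hp.1, hp.2.trans e3⟩] at h1
  exact h1

end Run7.h550.SY
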