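import Pool.Agent.Run7.h874.T550.Tools

/-!
# T3: exit time and logarithm along an expanding complex coordinate (helper550)
-/

set_option autoImplicit false

namespace Run7.h550.SY

open Set Filter Topology Function Complex

section one

variable {r : ℝ} {u du : ℝ → ℂ} {l : ℂ}

theorem nsq_deriv {t : ℝ} (h : HasDerivAt u (du t) t) :
    HasDerivAt (fun s => ‖u s‖ ^ 2) (2 * ((starRingEnd ℂ) (u t) * du t).re) t := by
  have h1 := h.norm_sq
  convert h1 using 1
  rw [Complex.inner, mul_comm]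
  simp [mul_comm]

theorem nsq_growth {t : ℝ}
    (h : ‖du t - l * u t‖ ≤ ‖u t‖ / 50) :
    2 * (l.re - 1 / 50) * ‖u t‖ ^ 2 ≤ 2 * ((starRingEnd ℂ) (u t) * du t).re := by
  have e1 : (starRingEnd ℂ) (u t) * du t = (starRingEnd ℂ) (u t) * (l * u t) +
      (starRingEnd ℂ) (u t) * (du t - l * u t) := by ring
  have e2 : ((starRingEnd ℂ) (u t) * (l * u t)).re = l.re * ‖u t‖ ^ 2 := by
    have : (starRingEnd ℂ) (u t) * (l * u t) = l * ((‖u t‖ ^ 2 : ℝ) : ℂ) := by
      rw [← Complex.normSq_eq_norm_sq, Complex.normSq_eq_conj_mul_self]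
      ring
    rw [this, Complex.re_mul_ofReal]
  have e3 : -(‖u t‖ * (‖u t‖ / 50)) ≤ ((starRingEnd ℂ) (u t) * (du t - l * u t)).re := by
    have := Complex.abs_re_le_norm ((starRingEnd ℂ) (u t) * (du t - l * u t))
    rw [norm_mul, RCLike.norm_conj] at this
    have h2 : ‖u t‖ * ‖du t - l * u t‖ ≤ ‖u t‖ * (‖u t‖ / 50) :=
      mul_le_mul_of_nonneg_left h (norm_nonneg _)
    have := (abs_le.1 (this.trans h2)).1
    exact this
  rw [e1, Complex.add_re, e2]
  nlinarith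

theorem mono_norm (hder : ∀ t, HasDerivAt u (du t) t) {T : ℝ}
    (hg : ∀ t ∈ Icc 0 T, ‖du t - l * u t‖ ≤ ‖u t‖ / 50) {s t : ℝ} (hs : 0 ≤ s) (hst : s ≤ t)
    (ht : t ≤ T) : ‖u s‖ ^ 2 * Real.exp (2 * (l.re - 1 / 50) * (t - s)) ≤ ‖u t‖ ^ 2 := by
  set c := 2 * (l.re - 1 / 50) with hc
  have hF : ∀ x, HasDerivAt (fun x => ‖u x‖ ^ 2 * Real.exp (-(c * x)))
      (2 * ((starRingEnd ℂ) (u x) * du x).re * Real.exp (-(c * x)) +
        ‖u x‖ ^ 2 * (Real.exp (-(c * x)) * (-(c * 1)))) x := by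
    intro x
    exact (nsq_deriv (hder x)).mul (((hasDerivAt_id x).const_mul c).neg.exp)
  have hmono : MonotoneOn (fun x => ‖u x‖ ^ 2 * Real.exp (-(c * x))) (Icc 0 T) := by
    apply monotoneOn_of_deriv_nonneg (convex_Icc 0 T)
    · exact fun x _ => (hF x).continuousAt.continuousWithinAt
    · exact fun x _ => (hF x).differentiableAt.differentiableWithinAt
    · intro x hx
      rw [interior_Icc] at hx
      rw [(hF x).deriv]
      have h1 := nsq_growth (hg x ⟨hx.1.le, hx.2.le⟩)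
      rw [← hc] at h1
      have h2 := Real.exp_pos (-(c * x))
      nlinarith
  have h1 := hmono ⟨hs, hst.trans ht⟩ ⟨hs.trans hst, ht⟩ hst
  simp only at h1
  have h2 : Real.exp (c * (t - s)) = Real.exp (-(c * s)) / Real.exp (-(c * t)) := by
    rw [← Real.exp_sub]
    congr 1
    ring
  rw [h2, mul_div_assoc', div_le_iff₀ (Real.exp_pos _)]
  exact h1

end one

variable {a b r : ℝ} {u du : ℝ → ℝ → ℂ} {l : ℂ}

/-- first time with `‖u‖ ≥ r` -/
noncomputable def tout (u : ℝ → ℝ → ℂ) (r : ℝ) (p : ℝ) : ℝ := sInf {t | 0 ≤ t ∧ r ≤ ‖u t p‖}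

theorem tout_spec (hu : Continuous (uncurry u)) (hder : ∀ t p, HasDerivAt (fun s => u s p) (du t p) t)
    (hl : 1 / 10 < l.re) {p : ℝ} (h0 : 0 < ‖u 0 p‖) (h0r : ‖u 0 p‖ < r)
    (hg : ∀ t ≥ 0, (∀ s ∈ Icc 0 t, ‖u s p‖ ≤ r) → ‖du t p - l * u t p‖ ≤ ‖u t p‖ / 50) :
    0 < tout u r p ∧ ‖u (tout u r p) p‖ = r ∧ (∀ s, 0 ≤ s → s < tout u r p → ‖u s p‖ < r) ∧
      ∀ ε > 0, ∃ t ∈ Ioo (tout u r p) (tout u r p + ε), r < ‖u t p‖ := by
  have hup : Continuous fun s => u s p := hu.comp (continuous_id.prodMk continuous_const)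
  have hne : {t | 0 ≤ t ∧ r ≤ ‖u t p‖}.Nonempty := by
    by_contra hcon
    rw [not_nonempty_iff_eq_empty] at hcon
    have hlt : ∀ t ≥ 0, ‖u t p‖ ≤ r := by
      intro t ht
      by_contra h
      push Not at h
      have : t ∈ {t | 0 ≤ t ∧ r ≤ ‖u t p‖} := ⟨ht, h.le⟩
      rw [hcon] at this
      exact this
    have h1 : ∀ t ≥ 0, ‖u 0 p‖ ^ 2 * Real.exp (2 * (l.re - 1 / 50) * (t - 0)) ≤ ‖u t p‖ ^ 2 := by
      intro t ht
      exact mono_norm (u := fun s => u s p) (du := fun s => du s p) (T := t) (fun s => hder s p)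
        (fun s hs => hg s hs.1 fun q hq => hlt q hq.1) le_rfl ht le_rfl
    have h2 : ∀ t ≥ 0, ‖u 0 p‖ ^ 2 * (1 + 2 * (l.re - 1 / 50) * t) ≤ r ^ 2 := by
      intro t ht
      have h3 := h1 t ht
      rw [sub_zero] at h3
      have h4 := Real.add_one_le_exp (2 * (l.re - 1 / 50) * t)
      have h5 : ‖u t p‖ ^ 2 ≤ r ^ 2 := pow_le_pow_left₀ (norm_nonneg _) (hlt t ht) 2
      have h6 : 0 < ‖u 0 p‖ ^ 2 := by positivity
      nlinarith
    have h6 : 0 < ‖u 0 p‖ ^ 2 := by positivity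
    have hc : 0 < 2 * (l.re - 1 / 50) := by linarith
    have h7 := h2 (r ^ 2 / (‖u 0 p‖ ^ 2 * (2 * (l.re - 1 / 50)))) (by positivity)
    have h8 : ∀ A c R : ℝ, 0 < A → 0 < c → A * (1 + c * (R / (A * c))) = A + R := by
      intro A c R hA hc
      field_simp
    rw [h8 _ _ _ h6 hc] at h7
    linarith
  have hbd : BddBelow {t | 0 ≤ t ∧ r ≤ ‖u t p‖} := ⟨0, fun x hx => hx.1⟩
  have hcl : IsClosed {t | 0 ≤ t ∧ r ≤ ‖u t p‖} :=
    (isClosed_le continuous_const continuous_id).inter (isClosed_le continuous_const hup.norm)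
  have hmem := hcl.csInf_mem hne hbd
  have hlt : ∀ s, 0 ≤ s → s < tout u r p → ‖u s p‖ < r := by
    intro s hs hst
    by_contra h
    push Not at h
    exact absurd (csInf_le hbd ⟨hs, h⟩) (not_le.2 hst)
  have hpos : 0 < tout u r p := by
    rcases hmem.1.lt_or_eq with h | h
    · exact h
    · exfalso
      have := hmem.2
      rw [← h] at this
      linarith
  have heq : ‖u (tout u r p) p‖ = r := by
    refine le_antisymm ?_ hmem.2
    have h3 : Tendsto (fun s => ‖u s p‖) (𝓝[Ico 0 (tout u r p)] (tout u r p))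
        (𝓝 (‖u (tout u r p) p‖)) := (hup.norm.continuousAt).mono_left nhdsWithin_le_nhds
    have : (𝓝[Ico 0 (tout u r p)] (tout u r p)).NeBot := by
      rw [nhdsWithin_Ico_eq_nhdsLT hpos]
      infer_instance
    refine le_of_tendsto h3 ?_
    filter_upwards [self_mem_nhdsWithin] with x hx
    exact (hlt x hx.1 hx.2).le
  refine ⟨hpos, heq, hlt, fun ε hε => ?_⟩
  have hr : 0 < r := h0.trans h0r
  have h1 := hg (tout u r p) hpos.le (fun s hs => by
    rcases hs.2.lt_or_eq with h | h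
    · exact (hlt s hs.1 h).le
    · rw [h, heq])
  have h2 := nsq_growth (u := fun s => u s p) (du := fun s => du s p) h1
  have h3 : 0 < 2 * (l.re - 1 / 50) * ‖u (tout u r p) p‖ ^ 2 := by
    rw [heq]
    have : 0 < 2 * (l.re - 1 / 50) := by linarith
    positivity
  have h4 := freq_of_deriv (nsq_deriv (u := fun s => u s p) (du := fun s => du s p)
    (hder (tout u r p) p)) (D := r ^ 2) (by
      show ‖u (tout u r p) p‖ ^ 2 = r ^ 2
      rw [heq]) (h3.trans_le h2)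
  obtain ⟨t, ht1, ht2⟩ := (h4.and_eventually (Ioo_mem_nhdsGT
    (show tout u r p < tout u r p + ε by linarith))).exists
  exact ⟨t, ht2, lt_of_pow_lt_pow_left₀ 2 (norm_nonneg _) ht1⟩

theorem tout_cont (hu : Continuous (uncurry u))
    (hder : ∀ t p, HasDerivAt (fun s => u s p) (du t p) t) (hl : 1 / 10 < l.re)
    (h0 : ∀ p ∈ Icc a b, 0 < ‖u 0 p‖ ∧ ‖u 0 p‖ < r)
    (hg : ∀ p ∈ Icc a b, ∀ t ≥ 0, (∀ s ∈ Icc 0 t, ‖u s p‖ ≤ r) →
      ‖du t p - l * u t p‖ ≤ ‖u t p‖ / 50) : ContinuousOn (tout u r) (Icc a b) := by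
  have hsp := fun p (hp : p ∈ Icc a b) => tout_spec hu hder hl (h0 p hp).1 (h0 p hp).2 (hg p hp)
  have hun : Continuous (uncurry fun s p => - ‖u s p‖) := hu.norm.neg
  intro p hp
  refine Metric.tendsto_nhds.2 fun ε hε => ?_
  obtain ⟨h1, h2, h3, h4⟩ := hsp p hp
  have hlow : ∀ᶠ q in 𝓝[Icc a b] p, tout u r p - ε < tout u r q := by
    have e1 : ∀ s ∈ Icc 0 (tout u r p - ε), -r < (fun s p => - ‖u s p‖) s p := by
      intro s hs
      have := h3 s hs.1 (by linarith [hs.2])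
      show -r < - ‖u s p‖
      linarith
    filter_upwards [nhdsWithin_le_nhds (ev_all hun e1), self_mem_nhdsWithin] with q hq hqm
    by_contra hcon
    push Not at hcon
    have e2 := hq (tout u r q) ⟨(hsp q hqm).1.le, hcon⟩
    have e3 := (hsp q hqm).2.1
    have e4 : -r < - ‖u (tout u r q) q‖ := e2
    linarith
  have hupp : ∀ᶠ q in 𝓝[Icc a b] p, tout u r q < tout u r p + ε := by
    obtain ⟨t, ht, ht'⟩ := h4 ε hε
    have hc : Continuous fun q => ‖u t q‖ := (hu.comp (continuous_const.prodMk continuous_id)).norm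
    filter_upwards [nhdsWithin_le_nhds (hc.continuousAt.eventually (lt_mem_nhds ht'))] with q hq
    refine lt_of_le_of_lt (csInf_le ⟨0, fun x hx => hx.1⟩ ⟨h1.le.trans ht.1.le, ?_⟩) ht.2
    exact (show r < ‖u t q‖ from hq).le
  filter_upwards [hlow, hupp] with q hq1 hq2
  rw [Real.dist_eq, abs_lt]
  constructor <;> linarith

theorem exitL (hab : a ≤ b) (hu : Continuous (uncurry u)) (hdu : Continuous (uncurry du))
    (hder : ∀ t p, HasDerivAt (fun s => u s p) (du t p) t) (hl : 1 / 10 < l.re)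
    (h0 : ∀ p ∈ Icc a b, 0 < ‖u 0 p‖ ∧ ‖u 0 p‖ < r)
    (hg : ∀ p ∈ Icc a b, ∀ t ≥ 0, (∀ s ∈ Icc 0 t, ‖u s p‖ ≤ r) →
      ‖du t p - l * u t p‖ ≤ ‖u t p‖ / 50) :
    ∃ Z : ℝ → ℝ → ℂ, ContinuousOn (tout u r) (Icc a b) ∧ Continuous (uncurry Z) ∧
      (∀ p, Z 0 p = 0) ∧ ∀ p ∈ Icc a b, 0 < tout u r p ∧ ‖u (tout u r p) p‖ = r ∧
        (∀ t ∈ Icc 0 (tout u r p), ‖u t p‖ ≤ r ∧ ‖u 0 p‖ ≤ ‖u t p‖ ∧
          HasDerivAt (fun s => Z s p) (du t p / u t p) t ∧ u t p = u 0 p * exp (Z t p)) ∧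
        ∀ s t, 0 ≤ s → s ≤ t → t ≤ tout u r p →
          ‖Z t p - Z s p - l * ((t - s : ℝ) : ℂ)‖ ≤ (t - s) / 50 := by
  have hsp := fun p (hp : p ∈ Icc a b) => tout_spec hu hder hl (h0 p hp).1 (h0 p hp).2 (hg p hp)
  have hle : ∀ p ∈ Icc a b, ∀ t ∈ Icc 0 (tout u r p), ‖u t p‖ ≤ r := by
    intro p hp t ht
    rcases ht.2.lt_or_eq with h | h
    · exact ((hsp p hp).2.2.1 t ht.1 h).le
    · rw [h, (hsp p hp).2.1]
  have hgr : ∀ p ∈ Icc a b, ∀ t ∈ Icc 0 (tout u r p), ‖du t p - l * u t p‖ ≤ ‖u t p‖ / 50 :=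
    fun p hp t ht => hg p hp t ht.1 fun s hs => hle p hp s ⟨hs.1, hs.2.trans ht.2⟩
  have hmon : ∀ p ∈ Icc a b, ∀ t ∈ Icc 0 (tout u r p), ‖u 0 p‖ ≤ ‖u t p‖ := by
    intro p hp t ht
    have h1 := mono_norm (u := fun s => u s p) (du := fun s => du s p) (T := t) (fun s => hder s p)
        (fun s hs => hgr p hp s ⟨hs.1, hs.2.trans ht.2⟩) le_rfl ht.1 le_rfl
    have h2 : (1 : ℝ) ≤ Real.exp (2 * (l.re - 1 / 50) * (t - 0)) := by
      apply Real.one_le_exp
      have := ht.1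
      have : 0 ≤ 2 * (l.re - 1 / 50) := by linarith
      rw [sub_zero]
      positivity
    have h3 : ‖u 0 p‖ ^ 2 ≤ ‖u t p‖ ^ 2 := by
      have : 0 ≤ ‖u 0 p‖ ^ 2 := by positivity
      nlinarith
    exact le_of_sq_le_sq h3 (norm_nonneg _)
  -- lower bound of the initial values
  have hc0 : Continuous fun p => ‖u 0 p‖ := (hu.comp (continuous_const.prodMk continuous_id)).norm
  obtain ⟨p₀, hp₀, hmin⟩ := isCompact_Icc.exists_isMinOn (nonempty_Icc.2 hab) hc0.continuousOn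
  set m := ‖u 0 p₀‖ with hm
  have hmpos : 0 < m := (h0 p₀ hp₀).1
  set g : ℝ → ℝ → ℂ := fun t p => du t p * (starRingEnd ℂ) (u t p) /
    ((max (‖u t p‖ ^ 2) (m ^ 2) : ℝ) : ℂ) with hgdef
  have hgc : Continuous (uncurry g) := by
    have hd : Continuous fun z : ℝ × ℝ => ((max (‖u z.1 z.2‖ ^ 2) (m ^ 2) : ℝ) : ℂ) :=
      Complex.continuous_ofReal.comp ((hu.norm.pow 2).max continuous_const)
    refine Continuous.div (hdu.mul (Complex.continuous_conj.comp hu)) hd ?_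
    intro z
    have : 0 < max (‖u z.1 z.2‖ ^ 2) (m ^ 2) := lt_max_of_lt_right (by positivity)
    exact_mod_cast this.ne'
  have hgeq : ∀ p ∈ Icc a b, ∀ t ∈ Icc 0 (tout u r p), g t p = du t p / u t p := by
    intro p hp t ht
    have h1 : m ≤ ‖u t p‖ := (isMinOn_iff.1 hmin p hp).trans (hmon p hp t ht)
    have h2 : m ^ 2 ≤ ‖u t p‖ ^ 2 := pow_le_pow_left₀ hmpos.le h1 2
    have h3 : u t p ≠ 0 := norm_pos_iff.1 (hmpos.trans_le h1)
    simp only [hgdef]
    rw [max_eq_left h2, ← Complex.normSq_eq_norm_sq, Complex.normSq_eq_conj_mul_self,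
      mul_comm ((starRingEnd ℂ) (u t p)) (u t p), mul_div_mul_right]
    exact (map_ne_zero _).2 h3
  set Z : ℝ → ℝ → ℂ := fun t p => ∫ s in (0:ℝ)..t, g s p with hZ
  have hZc : Continuous (uncurry Z) := by
    have h1 : Continuous (uncurry fun (z : ℝ × ℝ) (s : ℝ) => g s z.2) :=
      hgc.comp (continuous_snd.prodMk (continuous_snd.comp continuous_fst))
    exact intervalIntegral.continuous_parametric_intervalIntegral_of_continuous h1 continuous_fst
  have hZd : ∀ t p, HasDerivAt (fun s => Z s p) (g t p) t := by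
    intro t p
    have hgp : Continuous fun s => g s p := hgc.comp (continuous_id.prodMk continuous_const)
    exact intervalIntegral.integral_hasDerivAt_right (hgp.intervalIntegrable _ _)
      (hgp.stronglyMeasurableAtFilter _ _) hgp.continuousAt
  have hZ0 : ∀ p, Z 0 p = 0 := fun p => by simp [hZ]
  refine ⟨Z, tout_cont hu hder hl h0 hg, hZc, hZ0, fun p hp => ⟨(hsp p hp).1, (hsp p hp).2.1,
    fun t ht => ⟨hle p hp t ht, hmon p hp t ht, ?_, ?_⟩, fun s t hs hst ht => ?_⟩⟩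
  · rw [← hgeq p hp t ht]
    exact hZd t p
  · have h1 : ∀ x ∈ Icc 0 (tout u r p), u x p * exp (-(Z x p)) = u 0 p * exp (-(Z 0 p)) := by
      apply constant_of_has_deriv_right_zero
      · exact ((hu.comp (continuous_id.prodMk continuous_const)).mul
          (Complex.continuous_exp.comp (hZc.comp (continuous_id.prodMk continuous_const)).neg)).continuousOn
      · intro x hx
        have hx' : x ∈ Icc 0 (tout u r p) := ⟨hx.1, hx.2.le⟩
        have h3 : u x p ≠ 0 := norm_pos_iff.1 ((h0 p hp).1.trans_le (hmon p hp x hx'))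
        have h4 : HasDerivAt (fun x => u x p * exp (-(Z x p)))
            (du x p * exp (-(Z x p)) + u x p * (exp (-(Z x p)) * (-(g x p)))) x :=
          (hder x p).mul ((hZd x p).neg.cexp)
        rw [hgeq p hp x hx'] at h4
        have h5 : du x p * exp (-(Z x p)) + u x p * (exp (-(Z x p)) * (-(du x p / u x p))) = 0 := by
          field_simp
          ring
        rw [h5] at h4
        exact h4.hasDerivWithinAt
    have h2 := h1 t ht
    rw [hZ0, neg_zero, Complex.exp_zero, mul_one] at h2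
    rw [← h2, mul_assoc, ← Complex.exp_add, neg_add_cancel, Complex.exp_zero, mul_one]
  · have h1 : ∀ x ∈ Icc s t, HasDerivWithinAt (fun x => Z x p - l * (x : ℂ))
        (g x p - l * 1) (Icc s t) x := by
      intro x _
      exact ((hZd x p).sub ((Complex.ofRealCLM.hasDerivAt (x := x)).const_mul l)).hasDerivWithinAt
    have h2 : ∀ x ∈ Ico s t, ‖g x p - l * 1‖ ≤ 1 / 50 := by
      intro x hx
      have hx' : x ∈ Icc 0 (tout u r p) := ⟨hs.trans hx.1, hx.2.le.trans ht⟩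
      have h3 : u x p ≠ 0 := norm_pos_iff.1 ((h0 p hp).1.trans_le (hmon p hp x hx'))
      rw [hgeq p hp x hx', mul_one]
      have h4 : du x p / u x p - l = (du x p - l * u x p) / u x p := by
        field_simp
      rw [h4, norm_div, div_le_iff₀ (norm_pos_iff.2 h3)]
      have := hgr p hp x hx'
      linarith
    have h3 := norm_image_sub_le_of_norm_deriv_le_segment' h1 h2 t ⟨hst, le_rfl⟩
    have h4 : Z t p - Z s p - l * ((t - s : ℝ) : ℂ) = (Z t p - l * (t : ℂ)) - (Z s p - l * (s : ℂ)) := by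
      push_cast
      ring
    rw [h4]
    refine h3.trans (le_of_eq ?_)
    ring

end Run7.h550.SY
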