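import Pool.Agent.Run7.h874.T550.Orb2

/-!
# The restricted flow in hub coordinates (helper550)
-/

set_option autoImplicit false

namespace Run7.h550.SY

open Set Filter Topology Function Complex
open Run7.h874

/-- `uc` as a real linear map -/
noncomputable def ucL : (ℂ × ℂ) →L[ℝ] ℂ :=
  LinearMap.toContinuousLinearMap
    { toFun := fun z => uc z.1 z.2
      map_add' := by
        intro x y
        simp only [uc, Prod.fst_add, Prod.snd_add, Complex.add_re, Complex.add_im]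
        push_cast
        ring
      map_smul' := by
        intro c x
        simp only [uc, Prod.smul_fst, Prod.smul_snd, Complex.real_smul, Complex.mul_re,
          Complex.mul_im, Complex.ofReal_re, Complex.ofReal_im, RingHom.id_apply]
        push_cast
        ring }

/-- `sc` as a real linear map -/
noncomputable def scL : (ℂ × ℂ) →L[ℝ] ℂ :=
  LinearMap.toContinuousLinearMap
    { toFun := fun z => sc z.1 z.2
      map_add' := by
        intro x y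
        simp only [sc, Prod.fst_add, Prod.snd_add, Complex.add_re, Complex.add_im]
        push_cast
        ring
      map_smul' := by
        intro c x
        simp only [sc, Prod.smul_fst, Prod.smul_snd, Complex.real_smul, Complex.mul_re,
          Complex.mul_im, Complex.ofReal_re, Complex.ofReal_im, RingHom.id_apply]
        push_cast
        ring }

theorem ucL_apply (z : ℂ × ℂ) : ucL z = uc z.1 z.2 := rfl
theorem scL_apply (z : ℂ × ℂ) : scL z = sc z.1 z.2 := rfl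

theorem U_eq (x : P2) : U x = ucL (x - (hubZ, 0)) := by
  rw [ucL_apply]
  simp [U]

theorem Sg_eq (x : P2) : Sg x = scL (x - (hubZ, 0)) := by
  rw [scL_apply]
  simp [Sg]

theorem U_cont : Continuous U := by
  have : U = fun x => ucL (x - (hubZ, 0)) := funext U_eq
  rw [this]
  fun_prop

theorem Sg_cont : Continuous Sg := by
  have : Sg = fun x => scL (x - (hubZ, 0)) := funext Sg_eq
  rw [this]
  fun_prop

/-- the derivatives along the flow -/
noncomputable def dU (x : P2) : ℂ := uc (f0 rho0 x).1 (f0 rho0 x).2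
noncomputable def dS (x : P2) : ℂ := sc (f0 rho0 x).1 (f0 rho0 x).2

variable {φ : ℝ → P2 → P2}

theorem derU (hφ : IsFlow (f0 rho0) φ) (y : P2) (t : ℝ) :
    HasDerivAt (fun s => U (φ s y)) (dU (φ t y)) t := by
  have h1 : HasDerivAt (fun s => φ s y - (hubZ, 0)) (f0 rho0 (φ t y)) t :=
    (hφ.deriv t y).sub_const _
  have h2 := ucL.hasFDerivAt.comp_hasDerivAt t h1
  have h3 : (fun s => U (φ s y)) = ⇑ucL ∘ fun s => φ s y - (hubZ, 0) := by
    funext s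
    exact U_eq _
  rw [h3]
  exact h2

theorem derS (hφ : IsFlow (f0 rho0) φ) (y : P2) (t : ℝ) :
    HasDerivAt (fun s => Sg (φ s y)) (dS (φ t y)) t := by
  have h1 : HasDerivAt (fun s => φ s y - (hubZ, 0)) (f0 rho0 (φ t y)) t :=
    (hφ.deriv t y).sub_const _
  have h2 := scL.hasFDerivAt.comp_hasDerivAt t h1
  have h3 : (fun s => Sg (φ s y)) = ⇑scL ∘ fun s => φ s y - (hubZ, 0) := by
    funext s
    exact Sg_eq _
  rw [h3]
  exact h2

theorem hub_n1 : ‖hubZ + 1 / 2‖ = 1 := by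
  have h3 : Real.sqrt 3 ^ 2 = 3 := Real.sq_sqrt (by norm_num)
  have : ‖hubZ + 1 / 2‖ ^ 2 = 1 := by
    rw [← Complex.normSq_eq_norm_sq, Complex.normSq_apply]
    simp [hubZ]
    ring_nf
    rw [h3]
    norm_num
  nlinarith [norm_nonneg (hubZ + 1 / 2)]

theorem hub_n2 : ‖hubZ - 1 / 2‖ = 1 := by
  have h3 : Real.sqrt 3 ^ 2 = 3 := Real.sq_sqrt (by norm_num)
  have : ‖hubZ - 1 / 2‖ ^ 2 = 1 := by
    rw [← Complex.normSq_eq_norm_sq, Complex.normSq_apply]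
    simp [hubZ]
    ring_nf
    rw [h3]
    norm_num
  nlinarith [norm_nonneg (hubZ - 1 / 2)]

theorem hub_n0 : ‖hubZ‖ ≤ 1 := by
  have h3 : Real.sqrt 3 ^ 2 = 3 := Real.sq_sqrt (by norm_num)
  have : ‖hubZ‖ ^ 2 = 3 / 4 := by
    rw [← Complex.normSq_eq_norm_sq, Complex.normSq_apply]
    simp [hubZ]
    ring_nf
    rw [h3]
    norm_num
  nlinarith [norm_nonneg hubZ]

theorem far_near {x : P2} (h1 : ‖x.1 - hubZ‖ ≤ 1 / 100) (h2 : ‖x.2‖ ≤ 1 / 100) : far x := by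
  have e1 : 1 ≤ ‖x.1 + 1 / 2‖ + ‖x.1 - hubZ‖ := by
    rw [← hub_n1]
    calc ‖hubZ + 1 / 2‖ = ‖(x.1 + 1 / 2) - (x.1 - hubZ)‖ := by ring_nf
      _ ≤ _ := norm_sub_le _ _
  have e2 : 1 ≤ ‖x.1 - 1 / 2‖ + ‖x.1 - hubZ‖ := by
    rw [← hub_n2]
    calc ‖hubZ - 1 / 2‖ = ‖(x.1 - 1 / 2) - (x.1 - hubZ)‖ := by ring_nf
      _ ≤ _ := norm_sub_le _ _
  have e3 : ‖x.1‖ ≤ ‖x.1 - hubZ‖ + ‖hubZ‖ := by
    calc ‖x.1‖ = ‖(x.1 - hubZ) + hubZ‖ := by ring_nf
      _ ≤ _ := norm_add_le _ _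
  have e4 := hub_n0
  refine ⟨?_, ?_, ?_, ?_⟩
  · unfold rho0; linarith
  · unfold rho0; linarith
  · linarith
  · linarith

theorem near_of (hC2 : StmtC2) {x : P2} (hu : ‖U x‖ ≤ 1 / 250) (hs : ‖Sg x‖ ≤ 1 / 250) :
    ‖x.1 - hubZ‖ ≤ 1 / 100 ∧ ‖x.2‖ ≤ 1 / 100 := by
  have h := hC2 (x.1 - hubZ) x.2
  have h1 := h.2.2.2.2.1
  have h2 := h.2.2.2.2.2.1
  unfold U at hu
  unfold Sg at hs
  constructor <;> linarith

theorem locorb (hC2 : StmtC2) (hC6 : StmtC6) (hφ : IsFlow (f0 rho0) φ) (y : P2) :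
    LocOrb (fun t => U (φ t y)) (fun t => Sg (φ t y)) (fun t => dU (φ t y))
      (fun t => dS (φ t y)) (fun t => ‖(φ t y).1 - hubZ‖) where
  hu := derU hφ y
  hs := derS hφ y
  z0 t := norm_nonneg _
  zle t := (hC2 ((φ t y).1 - hubZ) (φ t y).2).2.2.2.2.1
  nu t h1 h2 := by
    obtain ⟨n1, n2⟩ := near_of hC2 h1 h2
    obtain ⟨⟨n, hn, e1, e2⟩, -⟩ := hC6 (φ t y) n1
    show ‖dU (φ t y) - lam * U (φ t y)‖ ≤ 4 * ‖(φ t y).1 - hubZ‖ ^ 2
    unfold dU
    rw [e1, add_sub_cancel_left]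
    have h3 := (hC2 0 n).1
    linarith [sq_nonneg ‖(φ t y).1 - hubZ‖]
  ns t h1 h2 := by
    obtain ⟨n1, n2⟩ := near_of hC2 h1 h2
    obtain ⟨⟨n, hn, e1, e2⟩, -⟩ := hC6 (φ t y) n1
    show ‖dS (φ t y) + (starRingEnd ℂ) lam * Sg (φ t y)‖ ≤ 3.2 * ‖(φ t y).1 - hubZ‖ ^ 2
    unfold dS
    rw [e2]
    have h4 : -(starRingEnd ℂ) lam * Sg (φ t y) + sc 0 n + (starRingEnd ℂ) lam * Sg (φ t y) =
        sc 0 n := by ring
    rw [h4]
    have h3 := (hC2 0 n).2.1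
    linarith [sq_nonneg ‖(φ t y).1 - hubZ‖]

theorem enb (hC2 : StmtC2) (hC6 : StmtC6) (hC7 : StmtC7) (hφ : IsFlow (f0 rho0) φ) {y : P2}
    {ν : ℝ} (hν : |En y| ≤ ν) :
    EnB ν (fun t => U (φ t y)) (fun t => Sg (φ t y)) (fun t => ‖(φ t y).1 - hubZ‖) := by
  intro t ht hb
  have h1 := hC7.2.2 φ hφ y t ht (fun q hq => by
    obtain ⟨n1, n2⟩ := near_of hC2 (hb q hq).1 (hb q hq).2
    exact far_near n1 n2)
  obtain ⟨n1, n2⟩ := near_of hC2 (hb t ⟨ht, le_rfl⟩).1 (hb t ⟨ht, le_rfl⟩).2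
  have h2 := (hC6 (φ t y) n1).2
  rw [h1] at h2
  have h3 : (U (φ t y) * (starRingEnd ℂ) (Sg (φ t y))).im =
      (En y + (U (φ t y) * (starRingEnd ℂ) (Sg (φ t y))).im) - En y := by ring
  show |(U (φ t y) * (starRingEnd ℂ) (Sg (φ t y))).im| ≤ _
  rw [h3]
  exact (abs_sub _ _).trans (by linarith)

end Run7.h550.SY
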