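import Pool.Agent.Run7.h874.T550.Exit

/-!
# Orbits near the hub, in hub coordinates (helper550)
-/

set_option autoImplicit false

namespace Run7.h550.SY

open Set Filter Topology Function Complex
open Run7.h874 (lam al be)

theorem lam_re : lam.re = al := by simp [Run7.h874.lam]
theorem lam_im : lam.im = be := by simp [Run7.h874.lam]

/-- an orbit near the hub -/
structure LocOrb (u s du ds : ℝ → ℂ) (z : ℝ → ℝ) : Prop where
  hu : ∀ t, HasDerivAt u (du t) t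
  hs : ∀ t, HasDerivAt s (ds t) t
  z0 : ∀ t, 0 ≤ z t
  zle : ∀ t, z t ≤ 0.895 * ‖u t‖ + 1.119 * ‖s t‖
  nu : ∀ t, ‖u t‖ ≤ 1 / 250 → ‖s t‖ ≤ 1 / 250 → ‖du t - lam * u t‖ ≤ 4 * z t ^ 2
  ns : ∀ t, ‖u t‖ ≤ 1 / 250 → ‖s t‖ ≤ 1 / 250 →
    ‖ds t + (starRingEnd ℂ) lam * s t‖ ≤ 3.2 * z t ^ 2

/-- consequence of the conservation of energy -/
def EnB (ν : ℝ) (u s : ℝ → ℂ) (z : ℝ → ℝ) : Prop :=
  ∀ t, 0 ≤ t → (∀ q ∈ Icc 0 t, ‖u q‖ ≤ 1 / 250 ∧ ‖s q‖ ≤ 1 / 250) →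
    |(u t * (starRingEnd ℂ) (s t)).im| ≤ ν + 1.05 * z t ^ 3

variable {ν : ℝ} {u s du ds : ℝ → ℂ} {z : ℝ → ℝ}

theorem re_conj_mul_le (a b : ℂ) : ((starRingEnd ℂ) a * b).re ≤ ‖a‖ * ‖b‖ := by
  have := Complex.re_le_norm ((starRingEnd ℂ) a * b)
  rwa [norm_mul, RCLike.norm_conj] at this

/-- consequences of the weak bounds at one time -/
theorem wk {S : ℂ} (hS0 : 0 < ‖S‖) (hS : ‖S‖ ≤ 1 / 2000) (hal : 0.632 < al)
    {s0 st : ℂ} {t zt : ℝ} (ht : 0 ≤ t) {ut : ℂ}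
    (hzle : zt ≤ 0.895 * ‖ut‖ + 1.119 * ‖st‖)
    (hs0 : ‖s0 - S‖ ≤ ‖S‖ / 100)
    (h1 : ‖st * exp ((starRingEnd ℂ) lam * t) - s0‖ ≤ 11 * ‖S‖ ^ 2)
    (h2 : ‖ut‖ ≤ ‖st‖ / 5) :
    0.9845 * ‖S‖ ≤ ‖st‖ * Real.exp (al * t) ∧ ‖st‖ * Real.exp (al * t) ≤ 1.0155 * ‖S‖ ∧
      ‖st‖ ≤ 1.0155 * ‖S‖ ∧ ‖ut‖ ≤ 1 / 250 ∧ ‖st‖ ≤ 1 / 250 ∧ zt ≤ 1.298 * ‖st‖ := by
  have e1 : ‖st * exp ((starRingEnd ℂ) lam * t)‖ = ‖st‖ * Real.exp (al * t) := by
    rw [norm_mul, Complex.norm_exp]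
    congr 2
    simp [lam_re]
  have h11 : 11 * ‖S‖ ^ 2 ≤ 0.0055 * ‖S‖ := by nlinarith
  have e2 : ‖st * exp ((starRingEnd ℂ) lam * t) - S‖ ≤ 0.0155 * ‖S‖ := by
    calc _ = ‖(st * exp ((starRingEnd ℂ) lam * t) - s0) + (s0 - S)‖ := by ring_nf
      _ ≤ _ := (norm_add_le _ _).trans (by linarith)
  have e3 : ‖st * exp ((starRingEnd ℂ) lam * t)‖ ≤ 1.0155 * ‖S‖ := by
    calc _ = ‖(st * exp ((starRingEnd ℂ) lam * t) - S) + S‖ := by ring_nf
      _ ≤ _ := (norm_add_le _ _).trans (by linarith)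
  have e4 : 0.9845 * ‖S‖ ≤ ‖st * exp ((starRingEnd ℂ) lam * t)‖ := by
    have : ‖S‖ ≤ ‖st * exp ((starRingEnd ℂ) lam * t)‖ + ‖st * exp ((starRingEnd ℂ) lam * t) - S‖ := by
      calc ‖S‖ = ‖st * exp ((starRingEnd ℂ) lam * t) - (st * exp ((starRingEnd ℂ) lam * t) - S)‖ := by
            ring_nf
        _ ≤ _ := norm_sub_le _ _
    linarith
  rw [e1] at e3 e4
  have e5 : 1 ≤ Real.exp (al * t) := Real.one_le_exp (by positivity)
  have e6 : ‖st‖ ≤ 1.0155 * ‖S‖ := by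
    have : ‖st‖ * 1 ≤ ‖st‖ * Real.exp (al * t) := mul_le_mul_of_nonneg_left e5 (norm_nonneg _)
    linarith
  refine ⟨e4, e3, e6, ?_, ?_, ?_⟩
  · linarith
  · linarith
  · linarith

theorem ph1 (hal : 0.632 < al) {S : ℂ} {δ τ : ℝ} (hS0 : 0 < ‖S‖) (hS : ‖S‖ ≤ 1 / 2000)
    (hδ : δ ≤ ‖S‖ / 10) (h : LocOrb u s du ds z) (hen : EnB ν u s z) (hs0 : ‖s 0 - S‖ ≤ ‖S‖ / 100)
    (hu0 : ‖u 0‖ ≤ ‖S‖ / 10) (hν : ν ≤ ‖S‖ ^ 3 * Real.exp (-(al * τ)) ^ 2 / 10 ^ 7) {T : ℝ}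
    (hT : T ≤ τ)
    (hY : ∀ t ∈ Icc 0 T, |(u t * (starRingEnd ℂ) (s t)).re * Real.exp (2 * al * t)| ≤
      0.99 * δ * ‖S‖) :
    ∀ t ∈ Icc 0 T, ‖s t * exp ((starRingEnd ℂ) lam * t) - s 0‖ ≤ 11 * ‖S‖ ^ 2 ∧
      ‖u t‖ ≤ ‖s t‖ / 5 := by
  have halpos : 0 < al := by linarith
  -- the rotated stable coordinate
  have hσ : ∀ t, HasDerivAt (fun t : ℝ => s t * exp ((starRingEnd ℂ) lam * t) - s 0)
      ((ds t + (starRingEnd ℂ) lam * s t) * exp ((starRingEnd ℂ) lam * t)) t := by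
    intro t
    have h1 : HasDerivAt (fun t : ℝ => exp ((starRingEnd ℂ) lam * t))
        (exp ((starRingEnd ℂ) lam * t) * ((starRingEnd ℂ) lam * 1)) t :=
      ((Complex.ofRealCLM.hasDerivAt (x := t)).const_mul ((starRingEnd ℂ) lam)).cexp
    exact (((h.hs t).mul h1).sub_const (s 0)).congr_deriv (by ring)
  set f : Fin 2 → ℝ → ℝ := fun i => if i = 0 then
      (fun t => ‖s t * exp ((starRingEnd ℂ) lam * t) - s 0‖ ^ 2 -
        (‖S‖ ^ 2 * (11 - 10 * Real.exp (-(al * t)))) ^ 2)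
    else (fun t => 25 * ‖u t‖ ^ 2 - ‖s t‖ ^ 2) with hf
  set f' : Fin 2 → ℝ → ℝ := fun i => if i = 0 then
      (fun t => 2 * ((starRingEnd ℂ) (s t * exp ((starRingEnd ℂ) lam * t) - s 0) *
          ((ds t + (starRingEnd ℂ) lam * s t) * exp ((starRingEnd ℂ) lam * t))).re -
        2 * (‖S‖ ^ 2 * (11 - 10 * Real.exp (-(al * t)))) *
          (‖S‖ ^ 2 * (10 * al * Real.exp (-(al * t)))))
    else (fun t => 25 * (2 * ((starRingEnd ℂ) (u t) * du t).re) -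
      2 * ((starRingEnd ℂ) (s t) * ds t).re) with hf'
  have hfd : ∀ i t, HasDerivAt (f i) (f' i t) t := by
    intro i t
    fin_cases i
    · simp only [hf, hf', Fin.zero_eta, if_true]
      refine (nsq_deriv (u := fun t => s t * exp ((starRingEnd ℂ) lam * t) - s 0)
        (du := fun t => (ds t + (starRingEnd ℂ) lam * s t) * exp ((starRingEnd ℂ) lam * t))
        (hσ t)).sub ?_
      have e0 : HasDerivAt (fun t : ℝ => -(al * t)) (-(al * 1)) t :=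
        ((hasDerivAt_id t).const_mul al).neg
      have e1 : HasDerivAt (fun t : ℝ => Real.exp (-(al * t))) (Real.exp (-(al * t)) * (-(al * 1))) t :=
        e0.exp
      have h1 : HasDerivAt (fun t => ‖S‖ ^ 2 * (11 - 10 * Real.exp (-(al * t))))
          (‖S‖ ^ 2 * (-(10 * (Real.exp (-(al * t)) * (-(al * 1)))))) t :=
        ((e1.const_mul 10).const_sub 11).const_mul _
      exact (h1.pow 2).congr_deriv (by push_cast; ring)
    · simp only [hf, hf', Fin.mk_one, one_ne_zero, if_false]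
      exact ((nsq_deriv (h.hu t)).const_mul 25).sub (nsq_deriv (h.hs t))
  have hs0' : 0.99 * ‖S‖ ≤ ‖s 0‖ := by
    have : ‖S‖ ≤ ‖s 0‖ + ‖s 0 - S‖ := by
      calc ‖S‖ = ‖s 0 - (s 0 - S)‖ := by ring_nf
        _ ≤ _ := norm_sub_le _ _
    linarith
  have key := barrier f f' T (fun i t _ => (hfd i t).continuousAt.continuousWithinAt)
    (fun i t _ => (hfd i t).hasDerivWithinAt) ?_ ?_
  · intro t ht
    have h1 := key t ht 0
    have h2 := key t ht 1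
    simp only [hf, if_true, one_ne_zero, if_false] at h1 h2
    have hE : 0 < Real.exp (-(al * t)) := Real.exp_pos _
    have hE1 : Real.exp (-(al * t)) ≤ 1 := Real.exp_le_one_iff.2 (by
      have := ht.1
      have : 0 ≤ al * t := by positivity
      linarith)
    constructor
    · have h3 : ‖s t * exp ((starRingEnd ℂ) lam * t) - s 0‖ ≤
          ‖S‖ ^ 2 * (11 - 10 * Real.exp (-(al * t))) := by
        apply le_of_sq_le_sq (by linarith)
        have : 0 ≤ 11 - 10 * Real.exp (-(al * t)) := by linarith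
        positivity
      have : ‖S‖ ^ 2 * (11 - 10 * Real.exp (-(al * t))) ≤ ‖S‖ ^ 2 * 11 :=
        mul_le_mul_of_nonneg_left (by linarith) (by positivity)
      linarith
    · have h3 : (5 * ‖u t‖) ^ 2 ≤ ‖s t‖ ^ 2 := by nlinarith
      have := le_of_sq_le_sq h3 (norm_nonneg _)
      linarith
  · intro i
    fin_cases i
    · simp only [hf, Fin.zero_eta, if_true]
      simp only [ofReal_zero, mul_zero, Complex.exp_zero, mul_one, sub_self, norm_zero, neg_zero,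
        Real.exp_zero]
      have : 0 < ‖S‖ ^ 4 := by positivity
      nlinarith
    · simp only [hf, Fin.mk_one, one_ne_zero, if_false]
      have h1 : 25 * ‖u 0‖ ^ 2 ≤ 25 * (‖S‖ / 10) ^ 2 := by gcongr
      have h2 : (0.99 * ‖S‖) ^ 2 ≤ ‖s 0‖ ^ 2 := by gcongr
      nlinarith [sq_nonneg ‖S‖]
  · intro t ht hall i hi
    have hwk : ∀ q ∈ Icc 0 t, ‖s q * exp ((starRingEnd ℂ) lam * q) - s 0‖ ≤
        ‖S‖ ^ 2 * (11 - 10 * Real.exp (-(al * q))) ∧ ‖u q‖ ≤ ‖s q‖ / 5 := by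
      intro q hq
      have h1 := hall q hq 0
      have h2 := hall q hq 1
      simp only [hf, if_true, one_ne_zero, if_false] at h1 h2
      have hE1 : Real.exp (-(al * q)) ≤ 1 := Real.exp_le_one_iff.2 (by
        have := hq.1
        have : 0 ≤ al * q := by positivity
        linarith)
      constructor
      · apply le_of_sq_le_sq (by linarith)
        have : 0 ≤ 11 - 10 * Real.exp (-(al * q)) := by linarith
        positivity
      · have h3 : (5 * ‖u q‖) ^ 2 ≤ ‖s q‖ ^ 2 := by nlinarith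
        have := le_of_sq_le_sq h3 (norm_nonneg _)
        linarith
    have hb : ∀ q ∈ Icc 0 t, 0.9845 * ‖S‖ ≤ ‖s q‖ * Real.exp (al * q) ∧
        ‖s q‖ * Real.exp (al * q) ≤ 1.0155 * ‖S‖ ∧
        ‖s q‖ ≤ 1.0155 * ‖S‖ ∧ ‖u q‖ ≤ 1 / 250 ∧ ‖s q‖ ≤ 1 / 250 ∧ z q ≤ 1.298 * ‖s q‖ := by
      intro q hq
      obtain ⟨h1, h2⟩ := hwk q hq
      have h3 : ‖S‖ ^ 2 * (11 - 10 * Real.exp (-(al * q))) ≤ ‖S‖ ^ 2 * 11 :=
        mul_le_mul_of_nonneg_left (by have := Real.exp_pos (-(al * q)); linarith) (by positivity)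
      exact wk hS0 hS hal hq.1 (h.zle q) hs0 (by linarith) h2
    have htt : t ∈ Icc 0 t := ⟨ht.1, le_rfl⟩
    obtain ⟨b1, b2, b3, b4, b5, b6⟩ := hb t htt
    have hE : 0 < Real.exp (-(al * t)) := Real.exp_pos _
    have hEE : Real.exp (al * t) * Real.exp (-(al * t)) = 1 := by
      rw [← Real.exp_add]; simp
    have hE1 : Real.exp (-(al * t)) ≤ 1 := Real.exp_le_one_iff.2 (by
      have := ht.1
      have : 0 ≤ al * t := by positivity
      linarith)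
    set E := Real.exp (-(al * t)) with hEdef
    have b1' : 0.9845 * ‖S‖ * E ≤ ‖s t‖ := by
      calc 0.9845 * ‖S‖ * E ≤ ‖s t‖ * Real.exp (al * t) * E := mul_le_mul_of_nonneg_right b1 hE.le
        _ = ‖s t‖ * (Real.exp (al * t) * E) := by ring
        _ = ‖s t‖ := by rw [hEE, mul_one]
    have b2' : ‖s t‖ ≤ 1.0155 * ‖S‖ * E := by
      calc ‖s t‖ = ‖s t‖ * (Real.exp (al * t) * E) := by rw [hEE, mul_one]
        _ = ‖s t‖ * Real.exp (al * t) * E := by ring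
        _ ≤ _ := mul_le_mul_of_nonneg_right b2 hE.le
    have hspos : 0 < ‖s t‖ := lt_of_lt_of_le (by positivity) b1'
    have hz0 := h.z0 t
    have hz2 : z t ^ 2 ≤ 1.685 * ‖s t‖ ^ 2 := by
      have : z t ^ 2 ≤ (1.298 * ‖s t‖) ^ 2 := by gcongr
      nlinarith [sq_nonneg ‖s t‖]
    fin_cases i
    · -- the stable coordinate
      simp only [hf, Fin.zero_eta, if_true] at hi
      simp only [hf', Fin.zero_eta, if_true]
      set A := ‖S‖ ^ 2 * (11 - 10 * E) with hA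
      have hApos : 0 < A := by
        have : 0 < 11 - 10 * E := by linarith
        positivity
      have hn : ‖s t * exp ((starRingEnd ℂ) lam * t) - s 0‖ = A := by
        have : ‖s t * exp ((starRingEnd ℂ) lam * t) - s 0‖ ^ 2 = A ^ 2 := by linarith
        exact (pow_left_inj₀ (norm_nonneg _) hApos.le (by norm_num)).1 this
      have h1 := re_conj_mul_le (s t * exp ((starRingEnd ℂ) lam * t) - s 0)
        ((ds t + (starRingEnd ℂ) lam * s t) * exp ((starRingEnd ℂ) lam * t))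
      rw [hn, norm_mul] at h1
      have h2 : ‖exp ((starRingEnd ℂ) lam * t)‖ = Real.exp (al * t) := by
        rw [Complex.norm_exp]
        congr 1
        simp [lam_re]
      rw [h2] at h1
      have h3 := h.ns t b4 b5
      have h4 : ‖ds t + (starRingEnd ℂ) lam * s t‖ * Real.exp (al * t) ≤ 5.6 * ‖S‖ ^ 2 * E := by
        calc ‖ds t + (starRingEnd ℂ) lam * s t‖ * Real.exp (al * t)
            ≤ (3.2 * (1.685 * ‖s t‖ ^ 2)) * Real.exp (al * t) := by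
              gcongr
              linarith
          _ = 5.392 * ‖s t‖ * (‖s t‖ * Real.exp (al * t)) := by ring
          _ ≤ 5.392 * (1.0155 * ‖S‖ * E) * (1.0155 * ‖S‖) := by gcongr
          _ ≤ 5.6 * ‖S‖ ^ 2 * E := by
              have : 0 ≤ ‖S‖ ^ 2 * E := by positivity
              nlinarith
      have h5 : ((starRingEnd ℂ) (s t * exp ((starRingEnd ℂ) lam * t) - s 0) *
          ((ds t + (starRingEnd ℂ) lam * s t) * exp ((starRingEnd ℂ) lam * t))).re ≤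
          A * (5.6 * ‖S‖ ^ 2 * E) := h1.trans (mul_le_mul_of_nonneg_left h4 hApos.le)
      have h6 : A * (5.6 * ‖S‖ ^ 2 * E) < A * (‖S‖ ^ 2 * (10 * al * E)) := by
        apply mul_lt_mul_of_pos_left _ hApos
        have : 0 < ‖S‖ ^ 2 * E := by positivity
        nlinarith
      linarith
    · -- the unstable coordinate stays small: contradiction
      exfalso
      simp only [hf, Fin.mk_one, one_ne_zero, if_false] at hi
      have h1 := hY t ⟨ht.1, ht.2.le⟩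
      have hEE2 : Real.exp (2 * al * t) * E ^ 2 = 1 := by
        rw [hEdef, ← Real.exp_nat_mul, ← Real.exp_add]
        simp
        ring
      have h2 : |(u t * (starRingEnd ℂ) (s t)).re| ≤ 0.103 * ‖s t‖ ^ 2 := by
        have h3 : |(u t * (starRingEnd ℂ) (s t)).re| =
            |(u t * (starRingEnd ℂ) (s t)).re * Real.exp (2 * al * t)| * E ^ 2 := by
          rw [abs_mul, abs_of_pos (Real.exp_pos _), mul_assoc, hEE2, mul_one]
        rw [h3]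
        calc |(u t * (starRingEnd ℂ) (s t)).re * Real.exp (2 * al * t)| * E ^ 2
            ≤ (0.99 * (‖S‖ / 10) * ‖S‖) * E ^ 2 := by
              have : 0.99 * δ * ‖S‖ ≤ 0.99 * (‖S‖ / 10) * ‖S‖ := by
                have := mul_le_mul_of_nonneg_right hδ hS0.le
                linarith
              gcongr
              linarith
          _ = 0.099 * (‖S‖ * E) ^ 2 := by ring
          _ ≤ 0.103 * (0.9845 * ‖S‖ * E) ^ 2 := by nlinarith [sq_nonneg (‖S‖ * E)]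
          _ ≤ 0.103 * ‖s t‖ ^ 2 := by gcongr
      have h3 := hen t ht.1 (fun q hq => ⟨(hb q hq).2.2.2.1, (hb q hq).2.2.2.2.1⟩)
      have h4 : |(u t * (starRingEnd ℂ) (s t)).im| ≤ 0.01 * ‖s t‖ ^ 2 := by
        have h5 : z t ^ 3 ≤ (1.298 * ‖s t‖) ^ 3 := by gcongr
        have h6 : (1.298 * ‖s t‖) ^ 3 ≤ 0.002 * ‖s t‖ ^ 2 := by
          have h7 : ‖s t‖ ≤ 1.0155 / 2000 := by linarith
          have : ‖s t‖ ^ 3 ≤ 1.0155 / 2000 * ‖s t‖ ^ 2 := by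
            have := mul_le_mul_of_nonneg_right h7 (sq_nonneg ‖s t‖)
            linarith [this, show ‖s t‖ ^ 3 = ‖s t‖ * ‖s t‖ ^ 2 by ring]
          calc (1.298 * ‖s t‖) ^ 3 = 1.298 ^ 3 * ‖s t‖ ^ 3 := by ring
            _ ≤ 1.298 ^ 3 * (1.0155 / 2000 * ‖s t‖ ^ 2) := by gcongr
            _ ≤ 0.002 * ‖s t‖ ^ 2 := by nlinarith [sq_nonneg ‖s t‖]
        have h8 : ν ≤ 0.001 * ‖s t‖ ^ 2 := by
          refine hν.trans ?_
          have h9 : Real.exp (-(al * τ)) ≤ E := Real.exp_le_exp.2 (by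
            have : al * t ≤ al * τ := mul_le_mul_of_nonneg_left (ht.2.le.trans hT) halpos.le
            linarith)
          have h10 : 0 < Real.exp (-(al * τ)) := Real.exp_pos _
          calc ‖S‖ ^ 3 * Real.exp (-(al * τ)) ^ 2 / 10 ^ 7 ≤ ‖S‖ ^ 3 * E ^ 2 / 10 ^ 7 := by gcongr
            _ = ‖S‖ / 10 ^ 7 * (‖S‖ * E) ^ 2 := by ring
            _ ≤ 1 / 10 ^ 7 * (‖S‖ * E) ^ 2 := by
                gcongr
                linarith
            _ ≤ 0.001 * (0.9845 * ‖S‖ * E) ^ 2 := by nlinarith [sq_nonneg (‖S‖ * E)]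
            _ ≤ 0.001 * ‖s t‖ ^ 2 := by gcongr
        linarith [sq_nonneg ‖s t‖]
      have h5 : ‖u t * (starRingEnd ℂ) (s t)‖ ≤ 0.113 * ‖s t‖ ^ 2 :=
        (Complex.norm_le_abs_re_add_abs_im _).trans (by linarith)
      rw [norm_mul, RCLike.norm_conj] at h5
      have h6 : ‖u t‖ ≤ 0.113 * ‖s t‖ := by
        have : ‖u t‖ * ‖s t‖ ≤ 0.113 * ‖s t‖ * ‖s t‖ := by linarith [sq (‖s t‖)]
        exact le_of_mul_le_mul_right this hspos
      have h7 : ‖u t‖ ^ 2 ≤ (0.113 * ‖s t‖) ^ 2 := by gcongr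
      have h8 : 0 < ‖s t‖ ^ 2 := by positivity
      have h9 : (0.113 * ‖s t‖) ^ 2 = 0.012769 * ‖s t‖ ^ 2 := by ring
      rw [h9] at h7
      linarith

/-- the crossing direction of the tube -/
theorem ph1c (hal : 0.632 < al) {S : ℂ} {δ τ : ℝ} (hS0 : 0 < ‖S‖) (hS : ‖S‖ ≤ 1 / 2000)
    (hδ : δ ≤ ‖S‖ / 10) (hδ' : 10 * ‖S‖ ^ 2 ≤ δ) (h : LocOrb u s du ds z) (hen : EnB ν u s z)
    (hs0 : ‖s 0 - S‖ ≤ ‖S‖ / 100)
    (hu0 : ‖u 0‖ ≤ ‖S‖ / 10) (hν : ν ≤ ‖S‖ ^ 3 * Real.exp (-(al * τ)) ^ 2 / 10 ^ 7) {t : ℝ}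
    (ht : 0 ≤ t) (htτ : t ≤ τ)
    (hY : ∀ q ∈ Icc 0 t, |(u q * (starRingEnd ℂ) (s q)).re * Real.exp (2 * al * q)| ≤
      0.99 * δ * ‖S‖) :
    ∃ y' : ℝ, HasDerivAt (fun q => (u q * (starRingEnd ℂ) (s q)).re * Real.exp (2 * al * q)) y' t ∧
      ((u t * (starRingEnd ℂ) (s t)).re * Real.exp (2 * al * t) = 0.99 * δ * ‖S‖ → 0 < y') ∧
      ((u t * (starRingEnd ℂ) (s t)).re * Real.exp (2 * al * t) = -(0.99 * δ * ‖S‖) → y' < 0) := by
  obtain ⟨p1, p2⟩ := ph1 hal hS0 hS hδ h hen hs0 hu0 hν htτ hY t ⟨ht, le_rfl⟩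
  obtain ⟨b1, b2, b3, b4, b5, b6⟩ := wk hS0 hS hal ht (h.zle t) hs0 p1 p2
  have hd : HasDerivAt (fun q => u q * (starRingEnd ℂ) (s q))
      (du t * (starRingEnd ℂ) (s t) + u t * (starRingEnd ℂ) (ds t)) t := by
    have h1 : HasDerivAt (fun q => (starRingEnd ℂ) (s q)) ((starRingEnd ℂ) (ds t)) t :=
      (Complex.conjCLE.toContinuousLinearMap.hasFDerivAt.comp_hasDerivAt t (h.hs t))
    exact (h.hu t).mul h1
  have hd2 : HasDerivAt (fun q => (u q * (starRingEnd ℂ) (s q)).re)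
      (du t * (starRingEnd ℂ) (s t) + u t * (starRingEnd ℂ) (ds t)).re t :=
    Complex.reCLM.hasFDerivAt.comp_hasDerivAt t hd
  have hd3 : HasDerivAt (fun q : ℝ => Real.exp (2 * al * q)) (Real.exp (2 * al * t) * (2 * al * 1)) t :=
    ((hasDerivAt_id t).const_mul (2 * al)).exp
  have hval : du t * (starRingEnd ℂ) (s t) + u t * (starRingEnd ℂ) (ds t) =
      (du t - lam * u t) * (starRingEnd ℂ) (s t) +
        u t * (starRingEnd ℂ) (ds t + (starRingEnd ℂ) lam * s t) := by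
    simp only [map_add, map_mul, Complex.conj_conj]
    ring
  set G := (du t - lam * u t) * (starRingEnd ℂ) (s t) +
        u t * (starRingEnd ℂ) (ds t + (starRingEnd ℂ) lam * s t) with hG
  set X := Real.exp (2 * al * t) with hX
  have hXpos : 0 < X := Real.exp_pos _
  have hXX : X = Real.exp (al * t) ^ 2 := by
    rw [hX, ← Real.exp_nat_mul]
    congr 1
    push_cast
    ring
  have hz2 : z t ^ 2 ≤ 1.685 * ‖s t‖ ^ 2 := by
    have h0 := h.z0 t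
    have h1 : z t ^ 2 ≤ (1.298 * ‖s t‖) ^ 2 := by gcongr
    have h2 : (1.298 * ‖s t‖) ^ 2 = 1.684804 * ‖s t‖ ^ 2 := by ring
    have h3 := sq_nonneg ‖s t‖
    linarith
  have hGn : ‖G‖ ≤ 7.82 * ‖s t‖ ^ 3 := by
    have h1 : ‖G‖ ≤ (4 * z t ^ 2) * ‖s t‖ + (‖s t‖ / 5) * (3.2 * z t ^ 2) := by
      refine (norm_add_le _ _).trans ?_
      rw [norm_mul, norm_mul, RCLike.norm_conj, RCLike.norm_conj]
      exact add_le_add (mul_le_mul_of_nonneg_right (h.nu t b4 b5) (norm_nonneg _))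
        (mul_le_mul p2 (h.ns t b4 b5) (norm_nonneg _) (by positivity))
    have h2 : (4 * z t ^ 2) * ‖s t‖ + (‖s t‖ / 5) * (3.2 * z t ^ 2) = 4.64 * z t ^ 2 * ‖s t‖ := by ring
    have h3 : 4.64 * z t ^ 2 * ‖s t‖ ≤ 4.64 * (1.685 * ‖s t‖ ^ 2) * ‖s t‖ := by gcongr
    have h4 : 4.64 * (1.685 * ‖s t‖ ^ 2) * ‖s t‖ = 7.8184 * ‖s t‖ ^ 3 := by ring
    have h5 : 0 ≤ ‖s t‖ ^ 3 := by positivity
    linarith
  have hGX : |G.re| * X ≤ 8.2 * ‖S‖ ^ 3 := by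
    have h1 : |G.re| ≤ 7.82 * ‖s t‖ ^ 3 := (Complex.abs_re_le_norm G).trans hGn
    calc |G.re| * X ≤ 7.82 * ‖s t‖ ^ 3 * X := mul_le_mul_of_nonneg_right h1 hXpos.le
      _ = 7.82 * ‖s t‖ * (‖s t‖ * Real.exp (al * t)) ^ 2 := by rw [hXX]; ring
      _ ≤ 7.82 * (1.0155 * ‖S‖) * (1.0155 * ‖S‖) ^ 2 := by gcongr
      _ = 7.82 * 1.0155 ^ 3 * ‖S‖ ^ 3 := by ring
      _ ≤ 8.2 * ‖S‖ ^ 3 := by
          have : 0 ≤ ‖S‖ ^ 3 := by positivity
          exact mul_le_mul_of_nonneg_right (by norm_num) this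
  have hbig : 12.5 * ‖S‖ ^ 3 ≤ 2 * al * (0.99 * δ * ‖S‖) := by
    have h1 : 0.99 * (10 * ‖S‖ ^ 2) * ‖S‖ ≤ 0.99 * δ * ‖S‖ := by gcongr
    have h2 : 0 ≤ 0.99 * (10 * ‖S‖ ^ 2) * ‖S‖ := by positivity
    calc 12.5 * ‖S‖ ^ 3 ≤ 2 * 0.632 * (0.99 * (10 * ‖S‖ ^ 2) * ‖S‖) := by
          have : 0 ≤ ‖S‖ ^ 3 := by positivity
          linarith [show 2 * 0.632 * (0.99 * (10 * ‖S‖ ^ 2) * ‖S‖) = 12.5136 * ‖S‖ ^ 3 by ring]
      _ ≤ 2 * al * (0.99 * δ * ‖S‖) := by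
          apply mul_le_mul _ h1 h2 (by linarith)
          linarith
  have hS3 : 0 < ‖S‖ ^ 3 := by positivity
  have hab := abs_le.1 (le_refl |G.re|)
  have hGX1 : -(8.2 * ‖S‖ ^ 3) ≤ G.re * X := by
    have : -|G.re| * X ≤ G.re * X := mul_le_mul_of_nonneg_right hab.1 hXpos.le
    linarith
  have hGX2 : G.re * X ≤ 8.2 * ‖S‖ ^ 3 :=
    (mul_le_mul_of_nonneg_right hab.2 hXpos.le).trans hGX
  refine ⟨_, hd2.mul hd3, fun hyt => ?_, fun hyt => ?_⟩
  · rw [hval]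
    have : (u t * (starRingEnd ℂ) (s t)).re * (X * (2 * al * 1)) = 2 * al * (0.99 * δ * ‖S‖) := by
      rw [← hyt]; ring
    rw [this]
    linarith
  · rw [hval]
    have : (u t * (starRingEnd ℂ) (s t)).re * (X * (2 * al * 1)) = -(2 * al * (0.99 * δ * ‖S‖)) := by
      have h1 : (u t * (starRingEnd ℂ) (s t)).re * (X * (2 * al * 1)) =
        2 * al * ((u t * (starRingEnd ℂ) (s t)).re * X) := by ring
      rw [h1, hyt]; ring
    rw [this]
    linarith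

end Run7.h550.SY
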