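import Pool.Agent.Run7.h874.T550.Orb

/-!
# Phase 2: away from the hub (helper550)
-/

set_option autoImplicit false

namespace Run7.h550.SY

open Set Filter Topology Function Complex
open Run7.h874 (lam al be)

variable {u s du ds : ℝ → ℂ} {z : ℝ → ℝ}

/-- algebra of the weak bounds of phase 2 -/
theorem wk2 {U S' z σ m : ℝ} (hU : 0 ≤ U) (hS : 0 ≤ S') (hz : 0 ≤ z)
    (hzle : z ≤ 0.895 * U + 1.119 * S')
    (hr : U ≤ 1 / 10 ^ 6) (hσ0 : 0 < σ) (hσ1 : σ ≤ 1 / 2000) (hσm : 40000 * σ ^ 2 ≤ m)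
    (h1 : S' ≤ 2 * σ + 10 * U ^ 2) (h2 : m / 2 ≤ U) :
    S' ≤ 1 / 250 ∧ U ≤ 1 / 250 ∧ 4 * z ^ 2 ≤ 6.42 * U ^ 2 + 81 * σ ^ 2 ∧
      6.42 * U ^ 2 + 81 * σ ^ 2 ≤ U / 100 ∧ 3.2 * z ^ 2 ≤ 5.13 * U ^ 2 + 8.02 * S' ^ 2 := by
  have e1 : U ^ 2 ≤ 1 / 10 ^ 6 * U := by
    rw [sq]
    exact mul_le_mul_of_nonneg_right hr hU
  have e2 : z ^ 2 ≤ (0.895 * U + 1.119 * S') ^ 2 := pow_le_pow_left₀ hz hzle 2
  have e3 : (0.895 * U + 1.119 * S') ^ 2 ≤ 2 * (0.801025 * U ^ 2 + 1.252161 * S' ^ 2) := by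
    nlinarith [sq_nonneg (0.895 * U - 1.119 * S')]
  have e4 : S' ^ 2 ≤ (2 * σ + 10 * U ^ 2) ^ 2 := pow_le_pow_left₀ hS h1 2
  have e5 : (2 * σ + 10 * U ^ 2) ^ 2 ≤ 2 * (4 * σ ^ 2 + 100 * U ^ 4) := by
    nlinarith [sq_nonneg (2 * σ - 10 * U ^ 2)]
  have e6 : U ^ 4 ≤ 1 / 10 ^ 12 * U ^ 2 := by
    have : U ^ 2 ≤ (1 / 10 ^ 6) ^ 2 := pow_le_pow_left₀ hU hr 2
    calc U ^ 4 = U ^ 2 * U ^ 2 := by ring
      _ ≤ (1 / 10 ^ 6) ^ 2 * U ^ 2 := mul_le_mul_of_nonneg_right this (sq_nonneg _)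
      _ = 1 / 10 ^ 12 * U ^ 2 := by ring
  have hU2 : 0 ≤ U ^ 2 := sq_nonneg _
  have hσ2 : 0 ≤ σ ^ 2 := sq_nonneg _
  refine ⟨?_, by linarith, ?_, ?_, ?_⟩
  · linarith
  · linarith
  · linarith
  · linarith [sq_nonneg S']

theorem ph2 (hal : 0.632 < al) {r σ m : ℝ} (hr : r ≤ 1 / 10 ^ 6)
    (h : LocOrb u s du ds z) (hm : 0 < m) (hm0 : m ≤ ‖u 0‖) (hσ0 : 0 < σ) (hσ1 : σ ≤ 1 / 2000)
    (hσm : 40000 * σ ^ 2 ≤ m) (hs0 : ‖s 0‖ ≤ σ) {t : ℝ}
    (ht : ∀ q ∈ Icc 0 t, ‖u q‖ ≤ r) :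
    ∀ q ∈ Icc 0 t, ‖s q‖ ≤ 2 * σ + 10 * ‖u q‖ ^ 2 ∧ m / 2 ≤ ‖u q‖ ∧
      ‖du q - lam * u q‖ ≤ 6.42 * ‖u q‖ ^ 2 + 81 * σ ^ 2 ∧
      ‖du q - lam * u q‖ ≤ ‖u q‖ / 50 ∧ z q ≤ 1 / 100 := by
  have main : ∀ q ∈ Icc 0 t, ‖s q‖ ≤ 2 * σ + 10 * ‖u q‖ ^ 2 ∧ m / 2 ≤ ‖u q‖ := by
    set f : Fin 2 → ℝ → ℝ := fun i => if i = 0 then
        (fun t => ‖s t‖ ^ 2 - (2 * σ + 10 * ‖u t‖ ^ 2) ^ 2)
      else (fun t => (m / 2) ^ 2 - ‖u t‖ ^ 2) with hf
    set f' : Fin 2 → ℝ → ℝ := fun i => if i = 0 then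
        (fun t => 2 * ((starRingEnd ℂ) (s t) * ds t).re -
          2 * (2 * σ + 10 * ‖u t‖ ^ 2) * (10 * (2 * ((starRingEnd ℂ) (u t) * du t).re)))
      else (fun t => - (2 * ((starRingEnd ℂ) (u t) * du t).re)) with hf'
    have hfd : ∀ i t, HasDerivAt (f i) (f' i t) t := by
      intro i t
      fin_cases i
      · simp only [hf, hf', Fin.zero_eta, if_true]
        have h1 : HasDerivAt (fun t => 2 * σ + 10 * ‖u t‖ ^ 2)
            (10 * (2 * ((starRingEnd ℂ) (u t) * du t).re)) t :=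
          ((nsq_deriv (h.hu t)).const_mul 10).const_add (2 * σ)
        exact (nsq_deriv (h.hs t)).sub ((h1.pow 2).congr_deriv (by push_cast; ring))
      · simp only [hf, hf', Fin.mk_one, one_ne_zero, if_false]
        exact ((nsq_deriv (h.hu t)).const_sub ((m / 2) ^ 2))
    have hdec : ∀ q, (∀ i, f i q ≤ 0) → ‖s q‖ ≤ 2 * σ + 10 * ‖u q‖ ^ 2 ∧ m / 2 ≤ ‖u q‖ := by
      intro q hq
      have h1 := hq 0
      have h2 := hq 1
      simp only [hf, if_true, one_ne_zero, if_false] at h1 h2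
      exact ⟨le_of_sq_le_sq (by linarith) (by positivity), le_of_sq_le_sq (by linarith) (norm_nonneg _)⟩
    have key := barrier f f' t (fun i t _ => (hfd i t).continuousAt.continuousWithinAt)
      (fun i t _ => (hfd i t).hasDerivWithinAt) ?_ ?_
    · exact fun q hq => hdec q (key q hq)
    · intro i
      fin_cases i
      · simp only [hf, Fin.zero_eta, if_true]
        have h1 : ‖s 0‖ ^ 2 ≤ σ ^ 2 := pow_le_pow_left₀ (norm_nonneg _) hs0 2
        have h2 : σ ^ 2 ≤ (2 * σ + 10 * ‖u 0‖ ^ 2) ^ 2 := by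
          apply pow_le_pow_left₀ hσ0.le
          have := sq_nonneg ‖u 0‖
          linarith
        linarith
      · simp only [hf, Fin.mk_one, one_ne_zero, if_false]
        have h1 : (m / 2) ^ 2 ≤ ‖u 0‖ ^ 2 := pow_le_pow_left₀ (by positivity) (by linarith) 2
        linarith
    · intro q hq hall i hi
      obtain ⟨w1, w2⟩ := hdec q (hall q ⟨hq.1, le_rfl⟩)
      have hur : ‖u q‖ ≤ 1 / 10 ^ 6 := (ht q ⟨hq.1, hq.2.le⟩).trans hr
      obtain ⟨v1, v2, v3, v4, v5⟩ := wk2 (norm_nonneg (u q)) (norm_nonneg (s q)) (h.z0 q) (h.zle q)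
        hur hσ0 hσ1 hσm w1 w2
      have hnu := h.nu q v2 v1
      have hns := h.ns q v2 v1
      have hU2 : 0 < ‖u q‖ ^ 2 := by
        have : 0 < ‖u q‖ := lt_of_lt_of_le (by positivity) w2
        positivity
      have hg : 2 * (lam.re - 1 / 50) * ‖u q‖ ^ 2 ≤ 2 * ((starRingEnd ℂ) (u q) * du q).re :=
        nsq_growth (u := u) (du := du) (by
          have := norm_nonneg (u q)
          linarith)
      rw [lam_re] at hg
      have hg' : 1.2 * ‖u q‖ ^ 2 ≤ 2 * ((starRingEnd ℂ) (u q) * du q).re := by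
        refine le_trans ?_ hg
        exact mul_le_mul_of_nonneg_right (by linarith) hU2.le
      fin_cases i
      · simp only [hf, Fin.zero_eta, if_true] at hi
        simp only [hf', Fin.zero_eta, if_true]
        set A := 2 * σ + 10 * ‖u q‖ ^ 2 with hA
        have hApos : 0 < A := by positivity
        have hsA : ‖s q‖ = A := by
          have : ‖s q‖ ^ 2 = A ^ 2 := by linarith
          exact (pow_left_inj₀ (norm_nonneg _) hApos.le (by norm_num)).1 this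
        have h1 : ((starRingEnd ℂ) (s q) * ds q).re ≤ -al * ‖s q‖ ^ 2 +
            ‖s q‖ * (5.13 * ‖u q‖ ^ 2 + 8.02 * ‖s q‖ ^ 2) := by
          have e1 : (starRingEnd ℂ) (s q) * ds q = -((starRingEnd ℂ) lam * ((‖s q‖ ^ 2 : ℝ) : ℂ)) +
              (starRingEnd ℂ) (s q) * (ds q + (starRingEnd ℂ) lam * s q) := by
            rw [← Complex.normSq_eq_norm_sq, Complex.normSq_eq_conj_mul_self]
            ring
          have e2 : (-((starRingEnd ℂ) lam * ((‖s q‖ ^ 2 : ℝ) : ℂ))).re = -al * ‖s q‖ ^ 2 := by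
            rw [Complex.neg_re, Complex.re_mul_ofReal, Complex.conj_re, lam_re]
            ring
          rw [e1, Complex.add_re, e2]
          have e3 := re_conj_mul_le (s q) (ds q + (starRingEnd ℂ) lam * s q)
          have e4 : ‖s q‖ * ‖ds q + (starRingEnd ℂ) lam * s q‖ ≤
              ‖s q‖ * (5.13 * ‖u q‖ ^ 2 + 8.02 * ‖s q‖ ^ 2) :=
            mul_le_mul_of_nonneg_left (hns.trans v5) (norm_nonneg _)
          linarith
        rw [hsA] at h1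
        have h2 : 2 * A * (10 * (1.2 * ‖u q‖ ^ 2)) ≤
            2 * A * (10 * (2 * ((starRingEnd ℂ) (u q) * du q).re)) := by
          apply mul_le_mul_of_nonneg_left _ (by positivity)
          linarith
        have h3 : A * (8.02 * A ^ 2) ≤ A * (0.1 * A) := by
          apply mul_le_mul_of_nonneg_left _ hApos.le
          have : A ≤ 1 / 250 := hsA ▸ v1
          have : A ^ 2 ≤ 1 / 250 * A := by
            rw [sq]
            exact mul_le_mul_of_nonneg_right this hApos.le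
          linarith
        have h4 : 0 < A ^ 2 := by positivity
        have h5 : 0 < A * ‖u q‖ ^ 2 := by positivity
        have h6 : 0.632 * A ^ 2 ≤ al * A ^ 2 := mul_le_mul_of_nonneg_right hal.le h4.le
        have h7 : A * (5.13 * ‖u q‖ ^ 2 + 8.02 * A ^ 2) = 5.13 * (A * ‖u q‖ ^ 2) + A * (8.02 * A ^ 2) := by
          ring
        have h8 : 2 * A * (10 * (1.2 * ‖u q‖ ^ 2)) = 24 * (A * ‖u q‖ ^ 2) := by ring
        have h9 : A * (0.1 * A) = 0.1 * A ^ 2 := by ring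
        rw [h7] at h1
        rw [h8] at h2
        rw [h9] at h3
        linarith
      · simp only [hf', Fin.mk_one, one_ne_zero, if_false]
        linarith
  intro q hq
  obtain ⟨w1, w2⟩ := main q hq
  have hur : ‖u q‖ ≤ 1 / 10 ^ 6 := (ht q hq).trans hr
  obtain ⟨v1, v2, v3, v4, v5⟩ := wk2 (norm_nonneg (u q)) (norm_nonneg (s q)) (h.z0 q) (h.zle q)
    hur hσ0 hσ1 hσm w1 w2
  have hnu := h.nu q v2 v1
  refine ⟨w1, w2, hnu.trans v3, ?_, ?_⟩
  · have := norm_nonneg (u q)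
    linarith
  · have := h.zle q
    linarith

/-- integrated estimate of the logarithm -/
theorem zint (hal : 0.632 < al) {Z : ℝ → ℂ} {T r σ : ℝ} (hT : 0 ≤ T) (hZ0 : Z 0 = 0)
    (hZ : ∀ t ∈ Icc 0 T, HasDerivAt Z (du t / u t) t)
    (huz : ∀ t ∈ Icc 0 T, u t = u 0 * exp (Z t)) (hu0 : u 0 ≠ 0)
    (hN : ∀ t ∈ Icc 0 T, ‖du t - lam * u t‖ ≤ 6.42 * ‖u t‖ ^ 2 + 81 * σ ^ 2 ∧
      ‖du t - lam * u t‖ ≤ ‖u t‖ / 50) (hr : ‖u T‖ ≤ r) :
    ‖Z T - lam * T‖ ≤ 11 * r + 140 * σ ^ 2 / ‖u 0‖ := by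
  have hn0 : 0 < ‖u 0‖ := norm_pos_iff.2 hu0
  have hnz : ∀ t ∈ Icc 0 T, ‖u t‖ = ‖u 0‖ * Real.exp (Z t).re := by
    intro t ht
    rw [huz t ht, norm_mul, Complex.norm_exp]
  have hne : ∀ t ∈ Icc 0 T, u t ≠ 0 := by
    intro t ht
    rw [← norm_pos_iff, hnz t ht]
    positivity
  have hre : ∀ t ∈ Icc 0 T, HasDerivAt (fun t => (Z t).re) (du t / u t).re t := fun t ht =>
    Complex.reCLM.hasFDerivAt.comp_hasDerivAt t (hZ t ht)
  have hrel : ∀ t ∈ Icc 0 T, 0.6 ≤ (du t / u t).re := by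
    intro t ht
    have e1 : du t / u t - lam = (du t - lam * u t) / u t := by
      have := hne t ht
      field_simp
    have e2 : ‖du t / u t - lam‖ ≤ 1 / 50 := by
      rw [e1, norm_div, div_le_iff₀ (norm_pos_iff.2 (hne t ht))]
      have := (hN t ht).2
      linarith
    have e3 := Complex.abs_re_le_norm (du t / u t - lam)
    rw [Complex.sub_re, lam_re] at e3
    have := (abs_le.1 (e3.trans e2)).1
    linarith
  set B : ℝ → ℝ := fun t => 10.7 * ‖u 0‖ * (Real.exp (Z t).re - 1) +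
    135 * σ ^ 2 / ‖u 0‖ * (1 - Real.exp (-(Z t).re)) with hB
  set B' : ℝ → ℝ := fun t => 10.7 * ‖u 0‖ * (Real.exp (Z t).re * (du t / u t).re) +
    135 * σ ^ 2 / ‖u 0‖ * (-(Real.exp (-(Z t).re) * (-(du t / u t).re))) with hB'
  have hBd : ∀ t ∈ Icc 0 T, HasDerivAt B (B' t) t := by
    intro t ht
    have h1 := hre t ht
    exact ((h1.exp.sub_const 1).const_mul _).add ((h1.neg.exp.const_sub 1).const_mul _)
  have key := image_norm_le_of_norm_deriv_right_le_deriv_boundary' (a := 0) (b := T)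
    (f := fun t => Z t - lam * (t : ℂ)) (f' := fun t => du t / u t - lam * 1) (B := B) (B' := B')
    (fun t ht => ((hZ t ht).sub ((Complex.ofRealCLM.hasDerivAt (x := t)).const_mul
      lam)).continuousAt.continuousWithinAt)
    (fun t ht => ((hZ t ⟨ht.1, ht.2.le⟩).sub ((Complex.ofRealCLM.hasDerivAt (x := t)).const_mul
      lam)).hasDerivWithinAt)
    (by simp [hB, hZ0])
    (fun t ht => (hBd t ht).continuousAt.continuousWithinAt)
    (fun t ht => (hBd t ⟨ht.1, ht.2.le⟩).hasDerivWithinAt)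
    (fun t ht => ?_) (x := T) ⟨hT, le_rfl⟩
  · refine key.trans ?_
    have hTT : T ∈ Icc 0 T := ⟨hT, le_rfl⟩
    have h1 := hnz T hTT
    have h2 : 0 < Real.exp (-(Z T).re) := Real.exp_pos _
    have h3 : 135 * σ ^ 2 / ‖u 0‖ * (1 - Real.exp (-(Z T).re)) ≤ 135 * σ ^ 2 / ‖u 0‖ * 1 :=
      mul_le_mul_of_nonneg_left (by linarith) (by positivity)
    have h4 : 135 * σ ^ 2 / ‖u 0‖ ≤ 140 * σ ^ 2 / ‖u 0‖ := by gcongr; norm_num
    have h5 : 10.7 * ‖u 0‖ * (Real.exp (Z T).re - 1) ≤ 11 * r := by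
      have h6 : 10.7 * ‖u 0‖ * (Real.exp (Z T).re - 1) = 10.7 * ‖u T‖ - 10.7 * ‖u 0‖ := by
        rw [h1]; ring
      rw [h6]
      have := norm_nonneg (u T)
      linarith
    simp only [hB]
    linarith
  · have ht' : t ∈ Icc 0 T := ⟨ht.1, ht.2.le⟩
    have hut : 0 < ‖u t‖ := norm_pos_iff.2 (hne t ht')
    have e1 : du t / u t - lam * 1 = (du t - lam * u t) / u t := by
      have := hne t ht'
      field_simp
    rw [e1, norm_div, div_le_iff₀ hut]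
    refine (hN t ht').1.trans ?_
    have h1 := hrel t ht'
    have h2 := hnz t ht'
    have h3 : Real.exp (-(Z t).re) = ‖u 0‖ / ‖u t‖ := by
      rw [h2, Real.exp_neg]
      field_simp
    have h4 : B' t = (10.7 * ‖u t‖ + 135 * σ ^ 2 / ‖u t‖) * (du t / u t).re := by
      simp only [hB']
      rw [h3]
      have h5 : ‖u 0‖ * Real.exp (Z t).re = ‖u t‖ := h2.symm
      have h6 : 10.7 * ‖u 0‖ * (Real.exp (Z t).re * (du t / u t).re) =
          10.7 * (‖u 0‖ * Real.exp (Z t).re) * (du t / u t).re := by ring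
      rw [h6, h5]
      field_simp
    rw [h4]
    have h7 : (10.7 * ‖u t‖ + 135 * σ ^ 2 / ‖u t‖) * 0.6 * ‖u t‖ ≤
        (10.7 * ‖u t‖ + 135 * σ ^ 2 / ‖u t‖) * (du t / u t).re * ‖u t‖ := by
      gcongr
    refine le_trans (le_of_eq ?_) h7
    field_simp
    ring

end Run7.h550.SY
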