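import Pool.Agent.Run7.h874.T550.PDa

/-!
# Piece D: passage of the hub (helper550)
-/

set_option autoImplicit false

namespace Run7.h550.SY

open Set Filter Topology Function Complex
open Run7.h874

/-- the tube coordinate -/
noncomputable def Yf (φ : ℝ → P2 → P2) (t : ℝ) (y : P2) : ℝ :=
  (U (φ t y) * (starRingEnd ℂ) (Sg (φ t y))).re * Real.exp (2 * al * t)

theorem Yf_def (φ : ℝ → P2 → P2) (t : ℝ) (y : P2) :
    Yf φ t y = (U (φ t y) * (starRingEnd ℂ) (Sg (φ t y))).re * Real.exp (2 * al * t) := rfl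

/-- the conclusion of phase 1 for one orbit -/
def W1 (S : ℂ) (φ : ℝ → P2 → P2) (T : ℝ) (y : P2) : Prop :=
  ∀ t ∈ Icc 0 T, ‖Sg (φ t y) * exp ((starRingEnd ℂ) lam * t) - Sg y‖ ≤ 11 * ‖S‖ ^ 2 ∧
          ‖U (φ t y)‖ ≤ ‖Sg (φ t y)‖ / 5

theorem cross0 {S : ℂ} {δ D : ℝ} (hS0 : 0 < ‖S‖) (hδ : 0 < δ) (hDdef : D = 0.99 * δ * ‖S‖)
    {φ : ℝ → P2 → P2} {y : P2} (hz : φ 0 y = y) (h : EntryC S y) :
    (δ ≤ ups y → D ≤ Yf φ 0 y) ∧ (ups y ≤ -δ → Yf φ 0 y ≤ -D) := by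
  have h1 := h.1
  have hlow : 0.99 * ‖S‖ ≤ ‖Sg y‖ := by
    have : ‖S‖ ≤ ‖Sg y‖ + ‖Sg y - S‖ := by
      calc ‖S‖ = ‖Sg y - (Sg y - S)‖ := by ring_nf
        _ ≤ _ := norm_sub_le _ _
    linarith
  have h2 : 0 < ‖Sg y‖ := lt_of_lt_of_le (by positivity) hlow
  have h3 : δ * (0.99 * ‖S‖) ≤ δ * ‖Sg y‖ := mul_le_mul_of_nonneg_left hlow hδ.le
  have h4 : D = δ * (0.99 * ‖S‖) := by rw [hDdef]; ring
  have h5 : Yf φ 0 y = (U y * (starRingEnd ℂ) (Sg y)).re := by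
    rw [Yf_def, hz, mul_zero, Real.exp_zero, mul_one]
  rw [h5]
  unfold ups
  constructor
  · intro h
    rw [le_div_iff₀ h2] at h
    linarith
  · intro h
    rw [div_le_iff₀ h2] at h
    linarith

/-- phase 1 for the flow: a sub-curve staying near the hub up to time `τ`, the real part of
`u conj s` at time `τ` running through `[D / 10 ^ 6, D]` -/
theorem phase1 (hC2 : StmtC2) (hC5 : StmtC5) (hC6 : StmtC6) (hC7 : StmtC7) {S : ℂ} {δ ν τ D : ℝ}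
    (hS0 : 0 < ‖S‖) (hS : ‖S‖ ≤ 1 / 2000) (hδ : δ ≤ ‖S‖ / 10) (hδ' : 10 * ‖S‖ ^ 2 ≤ δ) (hτ : 0 < τ)
    (hDdef : D = 0.99 * δ * ‖S‖)
    (hν : ν ≤ ‖S‖ ^ 3 * Real.exp (-(al * τ)) ^ 2 / 10 ^ 7)
    {φ : ℝ → P2 → P2} (hφ : IsFlow (f0 rho0) φ) {a b : ℝ} {x : ℝ → P2} (hab : a < b)
    (hx : Continuous x) (hen : ∀ p ∈ Icc a b, EntryC S (x p) ∧ |En (x p)| ≤ ν)
    (hcr : Cross (fun p => ups (x p)) a b (-δ) δ) :
    ∃ a' b' : ℝ, a ≤ a' ∧ a' < b' ∧ b' ≤ b ∧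
      Ends (fun p => Yf φ τ (x p)) a' b' (D / 10 ^ 6) D ∧
      ∀ p ∈ Icc a' b', D / 10 ^ 6 ≤ Yf φ τ (x p) ∧ W1 S φ τ (x p) := by
  obtain ⟨⟨hal, hal'⟩, ⟨hbe, -⟩, -, -⟩ := hC5
  have hδpos : 0 < δ := lt_of_lt_of_le (by positivity) hδ'
  have hD : 0 < D := by rw [hDdef]; positivity
  have hφc : Continuous fun z : ℝ × ℝ => φ z.1 (x z.2) :=
    hφ.cont.comp (continuous_fst.prodMk (hx.comp continuous_snd))
  have hYc : Continuous (uncurry fun t p => Yf φ t (x p)) := by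
    have h1 : Continuous fun z : ℝ × ℝ => U (φ z.1 (x z.2)) := U_cont.comp hφc
    have h2 : Continuous fun z : ℝ × ℝ => Sg (φ z.1 (x z.2)) := Sg_cont.comp hφc
    exact (Complex.continuous_re.comp (h1.mul (Complex.continuous_conj.comp h2))).mul
      (Real.continuous_exp.comp (continuous_const.mul continuous_fst))
  have hz : ∀ p, φ 0 (x p) = x p := fun p => hφ.zero (x p)
  have hph1 : ∀ p ∈ Icc a b, (∀ t ∈ Icc 0 τ, |Yf φ t (x p)| ≤ D) → W1 S φ τ (x p) := by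
    intro p hp hY
    have h1 := ph1 hal hS0 hS hδ (locorb hC2 hC6 hφ (x p)) (enb hC2 hC6 hC7 hφ (hen p hp).2)
      (by rw [hz]; exact (hen p hp).1.1) (by rw [hz]; exact (hen p hp).1.2) hν le_rfl
      (by rw [← hDdef]; exact hY)
    rw [hz] at h1
    exact h1
  have hcr0 : Cross ((fun t p => Yf φ t (x p)) 0) a b (-D) D := by
    have ha : a ∈ Icc a b := ⟨le_rfl, hab.le⟩
    have hb : b ∈ Icc a b := ⟨hab.le, le_rfl⟩
    have ea := cross0 hS0 hδpos hDdef (hz a) (hen a ha).1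
    have eb := cross0 hS0 hδpos hDdef (hz b) (hen b hb).1
    rcases hcr with ⟨h1, h2⟩ | ⟨h1, h2⟩
    · exact Or.inl ⟨ea.2 h1, eb.1 h2⟩
    · exact Or.inr ⟨ea.1 h1, eb.2 h2⟩
  have hcross : ∀ p ∈ Icc a b, ∀ t ∈ Ico 0 τ, (∀ s ∈ Icc 0 t, |(fun t p => Yf φ t (x p)) s p| ≤ D) →
      ((fun t p => Yf φ t (x p)) t p = D → ∃ᶠ s in 𝓝[>] t, D < (fun t p => Yf φ t (x p)) s p) ∧
      ((fun t p => Yf φ t (x p)) t p = -D → ∃ᶠ s in 𝓝[>] t, (fun t p => Yf φ t (x p)) s p < -D) := by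
    intro p hp t ht hY
    obtain ⟨y', e1, e2, e3⟩ := ph1c hal hS0 hS hδ hδ' (locorb hC2 hC6 hφ (x p))
      (enb hC2 hC6 hC7 hφ (hen p hp).2) (by rw [hz]; exact (hen p hp).1.1)
      (by rw [hz]; exact (hen p hp).1.2) hν ht.1 ht.2.le (by rw [← hDdef]; exact hY)
    rw [← hDdef] at e2 e3
    have e1' : HasDerivAt (fun q => Yf φ q (x p)) y' t := e1
    have e2' : Yf φ t (x p) = D → 0 < y' := e2
    have e3' : Yf φ t (x p) = -D → y' < 0 := e3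
    refine ⟨fun h => freq_of_deriv e1' h (e2' h), fun h => ?_⟩
    have h' : Yf φ t (x p) = -D := h
    have h2 := freq_of_deriv (y := fun q => -(Yf φ q (x p))) (D := D) e1'.neg
      (by show -(Yf φ t (x p)) = D; linarith) (by have := e3' h'; linarith)
    refine h2.mono fun s hs => ?_
    show Yf φ s (x p) < -D
    linarith
  obtain ⟨a1, b1, c1, c2, c3, c4, c5⟩ := tube (T := τ) hYc hab.le hτ hD hcr0 hcross
  have hcr2 : Cross (fun p => Yf φ τ (x p)) a1 b1 (D / 10 ^ 6) D := by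
    have h6 : -D ≤ D / 10 ^ 6 := by
      have : 0 ≤ D / 10 ^ 6 := by positivity
      linarith
    rcases c4 with ⟨h1, h2⟩ | ⟨h1, h2⟩
    · exact Or.inl ⟨h1.le.trans h6, h2.ge⟩
    · exact Or.inr ⟨h1.ge, h2.le.trans h6⟩
  have hYτ : Continuous fun p => Yf φ τ (x p) := by
    have h0 : Continuous fun p : ℝ => ((τ, x p) : ℝ × P2) := continuous_const.prodMk hx
    have h1 : Continuous fun p : ℝ => φ τ (x p) := hφ.cont.comp h0
    simp only [Yf_def]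
    exact (Complex.continuous_re.comp ((U_cont.comp h1).mul (Complex.continuous_conj.comp
      (Sg_cont.comp h1)))).mul continuous_const
  obtain ⟨a2, b2, d1, d2, d3, d4, d5⟩ := selC c2.le hYτ.continuousOn hcr2 (by linarith)
  refine ⟨a2, b2, c1.trans d1, d2, d3.trans c3, d4, fun p hp => ⟨(d5 p hp).1, ?_⟩⟩
  have hp1 : p ∈ Icc a1 b1 := ⟨d1.trans hp.1, hp.2.trans d3⟩
  exact hph1 p ⟨c1.trans hp1.1, hp1.2.trans c3⟩ (c5 p hp1)

end Run7.h550.SY
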