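import Pool.Agent.Run7.h874.T550.PD

/-!
# Piece D: phase 2 for the flow (helper550)
-/

set_option autoImplicit false

namespace Run7.h550.SY

open Set Filter Topology Function Complex
open Run7.h874

theorem f0_cont (hA3 : StmtA3) : Continuous (f0 rho0) := by
  obtain ⟨K, hK⟩ := hA3.1 rho0 (by unfold rho0; norm_num) (by unfold rho0; norm_num)
  exact hK.continuous

theorem dU_cont (hA3 : StmtA3) : Continuous dU := by
  have h1 : dU = fun x => ucL (f0 rho0 x) := rfl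
  rw [h1]
  exact ucL.continuous.comp (f0_cont hA3)

theorem phase2 (hA3 : StmtA3) (hC2 : StmtC2) (hal : 0.632 < al) (hC6 : StmtC6) {r σ m : ℝ}
    (hr0 : 0 < r) (hr : r ≤ 1 / 10 ^ 6) (hm : 0 < m) (hσ0 : 0 < σ) (hσ1 : σ ≤ 1 / 2000)
    (hσm : 10 ^ 6 * σ ^ 2 ≤ m) {φ : ℝ → P2 → P2} (hφ : IsFlow (f0 rho0) φ) {a b : ℝ} {y : ℝ → P2}
    (hab : a ≤ b) (hy : Continuous y)
    (h : ∀ p ∈ Icc a b, m ≤ ‖U (y p)‖ ∧ ‖U (y p)‖ < r ∧ ‖Sg (y p)‖ ≤ σ) :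
    ∃ (T : ℝ → ℝ) (Z : ℝ → ℂ), ContinuousOn T (Icc a b) ∧ ContinuousOn Z (Icc a b) ∧
      ∀ p ∈ Icc a b, 0 < T p ∧ T p ≤ 2 * r / m ∧ ‖U (φ (T p) (y p))‖ = r ∧
        U (φ (T p) (y p)) = U (y p) * exp (Z p) ∧ ‖Z p - lam * (T p : ℂ)‖ ≤ 1 / 1000 ∧
        ‖Sg (φ (T p) (y p))‖ ≤ 2 * σ + 10 * r ^ 2 ∧
        ∀ t ∈ Icc 0 (T p), ‖(φ t (y p)).1 - hubZ‖ ≤ 1 / 100 ∧ ‖(φ t (y p)).2‖ ≤ 1 / 100 := by
  obtain ⟨u, hu⟩ : ∃ u : ℝ → ℝ → ℂ, u = fun t p => U (φ t (y p)) := ⟨_, rfl⟩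
  obtain ⟨du, hdu⟩ : ∃ du : ℝ → ℝ → ℂ, du = fun t p => dU (φ t (y p)) := ⟨_, rfl⟩
  have hφc : Continuous fun z : ℝ × ℝ => φ z.1 (y z.2) :=
    hφ.cont.comp (continuous_fst.prodMk (hy.comp continuous_snd))
  have huc : Continuous (uncurry u) := by
    rw [hu]; exact U_cont.comp hφc
  have hduc : Continuous (uncurry du) := by
    rw [hdu]; exact (dU_cont hA3).comp hφc
  have hder : ∀ t p, HasDerivAt (fun s => u s p) (du t p) t := by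
    intro t p
    rw [hu, hdu]
    exact derU hφ (y p) t
  have hu0 : ∀ p, u 0 p = U (y p) := by
    intro p
    rw [hu]
    show U (φ 0 (y p)) = _
    rw [hφ.zero]
  have horb : ∀ p, LocOrb (fun t => u t p) (fun t => Sg (φ t (y p))) (fun t => du t p)
      (fun t => dS (φ t (y p))) (fun t => ‖(φ t (y p)).1 - hubZ‖) := by
    intro p
    rw [hu, hdu]
    exact locorb hC2 hC6 hφ (y p)
  have hσm' : 40000 * σ ^ 2 ≤ m := by
    have := sq_nonneg σ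
    linarith
  have hs0 : ∀ p ∈ Icc a b, ‖(fun t => Sg (φ t (y p))) 0‖ ≤ σ := by
    intro p hp
    show ‖Sg (φ 0 (y p))‖ ≤ σ
    rw [hφ.zero]
    exact (h p hp).2.2
  have hph2 : ∀ p ∈ Icc a b, ∀ t, (∀ q ∈ Icc 0 t, ‖u q p‖ ≤ r) → ∀ q ∈ Icc 0 t,
      ‖Sg (φ q (y p))‖ ≤ 2 * σ + 10 * ‖u q p‖ ^ 2 ∧ m / 2 ≤ ‖u q p‖ ∧
      ‖du q p - lam * u q p‖ ≤ 6.42 * ‖u q p‖ ^ 2 + 81 * σ ^ 2 ∧
      ‖du q p - lam * u q p‖ ≤ ‖u q p‖ / 50 ∧ ‖(φ q (y p)).1 - hubZ‖ ≤ 1 / 100 := by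
    intro p hp t ht
    exact ph2 hal hr (horb p) hm (by show m ≤ ‖u 0 p‖; rw [hu0]; exact (h p hp).1) hσ0 hσ1 hσm'
      (hs0 p hp) ht
  have h0 : ∀ p ∈ Icc a b, 0 < ‖u 0 p‖ ∧ ‖u 0 p‖ < r := by
    intro p hp
    rw [hu0]
    exact ⟨hm.trans_le (h p hp).1, (h p hp).2.1⟩
  obtain ⟨Z, k1, k2, k3, k4⟩ := exitL (l := lam) hab huc hduc hder (by rw [lam_re]; linarith) h0
    (fun p hp t ht hle => (hph2 p hp t hle t ⟨ht, le_rfl⟩).2.2.2.1)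
  refine ⟨tout u r, fun p => Z (tout u r p) p, k1, ?_, fun p hp => ?_⟩
  · have h1 : ContinuousOn (fun p : ℝ => ((tout u r p, p) : ℝ × ℝ)) (Icc a b) :=
      k1.prodMk continuousOn_id
    exact k2.comp_continuousOn h1
  · obtain ⟨e1, e2, e3, e4⟩ := k4 p hp
    have hTT : tout u r p ∈ Icc 0 (tout u r p) := ⟨e1.le, le_rfl⟩
    have hle : ∀ q ∈ Icc 0 (tout u r p), ‖u q p‖ ≤ r := fun q hq => (e3 q hq).1
    have hb := hph2 p hp (tout u r p) hle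
    have hn0 : 0 < ‖u 0 p‖ := (h0 p hp).1
    have hm0 : m ≤ ‖u 0 p‖ := by rw [hu0]; exact (h p hp).1
    have hnorm : ‖u 0 p‖ * Real.exp (Z (tout u r p) p).re = r := by
      have h1 := congrArg norm (e3 _ hTT).2.2.2
      rw [norm_mul, Complex.norm_exp, e2] at h1
      exact h1.symm
    have huT : U (φ (tout u r p) (y p)) = u (tout u r p) p := by rw [hu]
    refine ⟨e1, ?_, ?_, ?_, ?_, ?_, fun t ht => ?_⟩
    · have h1 := e4 0 (tout u r p) le_rfl e1.le le_rfl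
      rw [k3, sub_zero, sub_zero] at h1
      have h2 := Complex.abs_re_le_norm (Z (tout u r p) p - lam * (tout u r p : ℂ))
      rw [Complex.sub_re, Complex.re_mul_ofReal, lam_re] at h2
      have h3 := (abs_le.1 (h2.trans h1)).1
      have h4 : 0.6 * tout u r p ≤ (Z (tout u r p) p).re := by
        have : 0.632 * tout u r p ≤ al * tout u r p := mul_le_mul_of_nonneg_right hal.le e1.le
        linarith
      have h5 : Real.exp (Z (tout u r p) p).re ≤ r / m := by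
        have h8 := mul_le_mul_of_nonneg_right hm0 (Real.exp_pos (Z (tout u r p) p).re).le
        rw [hnorm] at h8
        rw [le_div_iff₀ hm]
        linarith
      have h6 := Real.add_one_le_exp (Z (tout u r p) p).re
      have h7 : 2 * r / m = 2 * (r / m) := by ring
      rw [h7]
      linarith
    · rw [huT]; exact e2
    · rw [huT, ← hu0]; exact (e3 _ hTT).2.2.2
    · have h1 := zint (u := fun t => u t p) (du := fun t => du t p) (Z := fun t => Z t p) hal e1.le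
        (k3 p) (fun t ht => (e3 t ht).2.2.1) (fun t ht => (e3 t ht).2.2.2)
        (norm_pos_iff.1 hn0) (fun t ht => ⟨(hb t ht).2.2.1, (hb t ht).2.2.2.1⟩) e2.le
      refine h1.trans ?_
      have h2 : 140 * σ ^ 2 / ‖u 0 p‖ ≤ 140 / 10 ^ 6 := by
        rw [div_le_div_iff₀ hn0 (by norm_num)]
        have : 10 ^ 6 * σ ^ 2 ≤ ‖u 0 p‖ := hσm.trans hm0
        linarith
      have h3 : 140 * σ ^ 2 / ‖(fun t => u t p) 0‖ = 140 * σ ^ 2 / ‖u 0 p‖ := rfl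
      rw [h3]
      linarith
    · have h1 := (hb _ hTT).1
      rw [e2] at h1
      exact h1
    · obtain ⟨g1, g2, g3, g4, g5⟩ := hb t ht
      have hut : ‖u t p‖ ≤ 1 / 10 ^ 6 := (hle t ht).trans hr
      have h1 : ‖u t p‖ ^ 2 ≤ 1 / 10 ^ 6 := by
        have : ‖u t p‖ ^ 2 ≤ (1 / 10 ^ 6) ^ 2 := pow_le_pow_left₀ (norm_nonneg _) hut 2
        linarith [show ((1 : ℝ) / 10 ^ 6) ^ 2 ≤ 1 / 10 ^ 6 by norm_num]
      have h2 : U (φ t (y p)) = u t p := by rw [hu]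
      exact near_of hC2 (by rw [h2]; linarith) (by linarith)

theorem ratio {S : ℂ} {D E : ℝ} {uL sL uH sH : ℂ} (hS0 : 0 < ‖S‖) (hE : 0 < E)
    (h1 : 0.9845 * ‖S‖ * E ≤ ‖sL‖) (h2 : ‖sH‖ ≤ 1.0155 * ‖S‖ * E)
    (h3 : |(uL * (starRingEnd ℂ) sL).im| ≤ (uL * (starRingEnd ℂ) sL).re)
    (h4 : (uL * (starRingEnd ℂ) sL).re = D / 10 ^ 6 * E ^ 2)
    (h5 : (uH * (starRingEnd ℂ) sH).re = D * E ^ 2) : 484000 * ‖uL‖ ≤ ‖uH‖ := by
  have e1 : ‖uL‖ * ‖sL‖ ≤ 2 * (D / 10 ^ 6 * E ^ 2) := by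
    have h6 := Complex.norm_le_abs_re_add_abs_im (uL * (starRingEnd ℂ) sL)
    rw [norm_mul, RCLike.norm_conj] at h6
    have h7 : 0 ≤ (uL * (starRingEnd ℂ) sL).re := (abs_nonneg _).trans h3
    rw [abs_of_nonneg h7] at h6
    linarith
  have e2 : D * E ^ 2 ≤ ‖uH‖ * ‖sH‖ := by
    have := Complex.re_le_norm (uH * (starRingEnd ℂ) sH)
    rw [norm_mul, RCLike.norm_conj] at this
    linarith
  have hSE : 0 < ‖S‖ * E := by positivity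
  have e3 : ‖uL‖ * (0.9845 * (‖S‖ * E)) ≤ 2 * (D / 10 ^ 6 * E ^ 2) := by
    have : ‖uL‖ * (0.9845 * ‖S‖ * E) ≤ ‖uL‖ * ‖sL‖ := mul_le_mul_of_nonneg_left h1 (norm_nonneg _)
    have h : ‖uL‖ * (0.9845 * (‖S‖ * E)) = ‖uL‖ * (0.9845 * ‖S‖ * E) := by ring
    linarith
  have e4 : D * E ^ 2 ≤ ‖uH‖ * (1.0155 * (‖S‖ * E)) := by
    have : ‖uH‖ * ‖sH‖ ≤ ‖uH‖ * (1.0155 * ‖S‖ * E) := mul_le_mul_of_nonneg_left h2 (norm_nonneg _)
    have h : ‖uH‖ * (1.0155 * (‖S‖ * E)) = ‖uH‖ * (1.0155 * ‖S‖ * E) := by ring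
    linarith
  have e6 : 0 ≤ ‖uH‖ * (‖S‖ * E) := by positivity
  have e5 : 484000 * ‖uL‖ * (‖S‖ * E) ≤ ‖uH‖ * (‖S‖ * E) := by linarith
  exact le_of_mul_le_mul_right e5 hSE

end Run7.h550.SY
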