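import Pool.Agent.Run7.h874.T550.FlowL

/-!
# Passage of the hub: end of phase 1 and phases (helper550)
-/

set_option autoImplicit false

namespace Run7.h550.SY

open Set Filter Topology Function Complex
open Run7.h874 (lam al be)

theorem exp_two_al {τ E : ℝ} (hE : E = Real.exp (-(al * τ))) :
    Real.exp (2 * al * τ) * E ^ 2 = 1 := by
  rw [hE, ← Real.exp_nat_mul, ← Real.exp_add]
  simp
  ring

theorem exp_al {τ E : ℝ} (hE : E = Real.exp (-(al * τ))) : Real.exp (al * τ) * E = 1 := by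
  rw [hE, ← Real.exp_add]
  simp

/-- the state at the end of phase 1 -/
theorem end1 {S : ℂ} {δ E ν τ zt : ℝ} {ut st s0 : ℂ} (hS0 : 0 < ‖S‖) (hS : ‖S‖ ≤ 1 / 2000)
    (hal : 0.632 < al) (hτ : 0 ≤ τ) (hE : E = Real.exp (-(al * τ))) (hE1 : E ≤ 1 / 10 ^ 12)
    (hδ' : 10 * ‖S‖ ^ 2 ≤ δ) (hs0 : ‖s0 - S‖ ≤ ‖S‖ / 100)
    (p1 : ‖st * exp ((starRingEnd ℂ) lam * τ) - s0‖ ≤ 11 * ‖S‖ ^ 2) (p2 : ‖ut‖ ≤ ‖st‖ / 5)
    (hz0 : 0 ≤ zt) (hz : zt ≤ 0.895 * ‖ut‖ + 1.119 * ‖st‖)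
    (hen : |(ut * (starRingEnd ℂ) st).im| ≤ ν + 1.05 * zt ^ 3)
    (hν : ν ≤ ‖S‖ ^ 3 * E ^ 2 / 10 ^ 7)
    (hY : 0.99 * δ * ‖S‖ / 10 ^ 6 ≤ (ut * (starRingEnd ℂ) st).re * Real.exp (2 * al * τ)) :
    0.9845 * ‖S‖ * E ≤ ‖st‖ ∧ ‖st‖ ≤ 1.0155 * ‖S‖ * E ∧
      0 < (st * exp ((starRingEnd ℂ) lam * τ) * (starRingEnd ℂ) S).re ∧
      0 < (ut * (starRingEnd ℂ) st).re ∧
      |(ut * (starRingEnd ℂ) st).im| ≤ (ut * (starRingEnd ℂ) st).re ∧
      0.97 * δ * E / 10 ^ 6 ≤ ‖ut‖ ∧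
      (ut * (starRingEnd ℂ) st).re =
        (ut * (starRingEnd ℂ) st).re * Real.exp (2 * al * τ) * E ^ 2 := by
  obtain ⟨b1, b2, b3, b4, b5, b6⟩ := wk hS0 hS hal hτ hz hs0 p1 p2
  have hEpos : 0 < E := hE ▸ Real.exp_pos _
  have hEE := exp_al hE
  have hEE2 := exp_two_al hE
  have c1 : 0.9845 * ‖S‖ * E ≤ ‖st‖ := by
    calc 0.9845 * ‖S‖ * E ≤ ‖st‖ * Real.exp (al * τ) * E := mul_le_mul_of_nonneg_right b1 hEpos.le
      _ = ‖st‖ * (Real.exp (al * τ) * E) := by ring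
      _ = ‖st‖ := by rw [hEE, mul_one]
  have c2 : ‖st‖ ≤ 1.0155 * ‖S‖ * E := by
    calc ‖st‖ = ‖st‖ * (Real.exp (al * τ) * E) := by rw [hEE, mul_one]
      _ = ‖st‖ * Real.exp (al * τ) * E := by ring
      _ ≤ _ := mul_le_mul_of_nonneg_right b2 hEpos.le
  have hstpos : 0 < ‖st‖ := lt_of_lt_of_le (by positivity) c1
  have c3 : (ut * (starRingEnd ℂ) st).re =
        (ut * (starRingEnd ℂ) st).re * Real.exp (2 * al * τ) * E ^ 2 := by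
    rw [mul_assoc, hEE2, mul_one]
  have hδpos : 0 < δ := lt_of_lt_of_le (by positivity) hδ'
  have c4 : 0.99 * δ * ‖S‖ / 10 ^ 6 * E ^ 2 ≤ (ut * (starRingEnd ℂ) st).re := by
    rw [c3]
    exact mul_le_mul_of_nonneg_right hY (sq_nonneg _)
  have c5 : 0 < (ut * (starRingEnd ℂ) st).re := lt_of_lt_of_le (by positivity) c4
  refine ⟨c1, c2, ?_, c5, ?_, ?_, c3⟩
  · have e1 : ‖st * exp ((starRingEnd ℂ) lam * τ) - S‖ ≤ 0.5 * ‖S‖ := by
      have h11 : 11 * ‖S‖ ^ 2 ≤ 0.0055 * ‖S‖ := by nlinarith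
      calc _ = ‖(st * exp ((starRingEnd ℂ) lam * τ) - s0) + (s0 - S)‖ := by ring_nf
        _ ≤ _ := (norm_add_le _ _).trans (by linarith)
    have e2 : st * exp ((starRingEnd ℂ) lam * τ) * (starRingEnd ℂ) S =
        (st * exp ((starRingEnd ℂ) lam * τ) - S) * (starRingEnd ℂ) S + ((‖S‖ ^ 2 : ℝ) : ℂ) := by
      rw [← Complex.normSq_eq_norm_sq, Complex.normSq_eq_conj_mul_self]
      ring
    rw [e2, Complex.add_re, Complex.ofReal_re]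
    have e3 := Complex.abs_re_le_norm ((st * exp ((starRingEnd ℂ) lam * τ) - S) * (starRingEnd ℂ) S)
    rw [norm_mul, RCLike.norm_conj] at e3
    have e4 : ‖st * exp ((starRingEnd ℂ) lam * τ) - S‖ * ‖S‖ ≤ 0.5 * ‖S‖ * ‖S‖ :=
      mul_le_mul_of_nonneg_right e1 hS0.le
    have e5 := (abs_le.1 (e3.trans e4)).1
    have e6 : 0 < ‖S‖ ^ 2 := by positivity
    have e7 : 0.5 * ‖S‖ * ‖S‖ = 0.5 * ‖S‖ ^ 2 := by ring
    linarith
  · refine hen.trans ?_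
    refine le_trans ?_ c4
    have e1 : zt ^ 3 ≤ (1.298 * (1.0155 * ‖S‖ * E)) ^ 3 := by
      apply pow_le_pow_left₀ hz0
      refine b6.trans ?_
      exact mul_le_mul_of_nonneg_left c2 (by norm_num)
    have e2 : (1.298 * (1.0155 * ‖S‖ * E)) ^ 3 = (1.298 * 1.0155) ^ 3 * (‖S‖ ^ 3 * E ^ 2) * E := by ring
    have hSE : 0 < ‖S‖ ^ 3 * E ^ 2 := by positivity
    have e3 : (1.298 * 1.0155) ^ 3 * (‖S‖ ^ 3 * E ^ 2) * E ≤
        (1.298 * 1.0155) ^ 3 * (‖S‖ ^ 3 * E ^ 2) * (1 / 10 ^ 12) :=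
      mul_le_mul_of_nonneg_left hE1 (by positivity)
    have e4 : 0.99 * (10 * ‖S‖ ^ 2) * ‖S‖ / 10 ^ 6 * E ^ 2 ≤ 0.99 * δ * ‖S‖ / 10 ^ 6 * E ^ 2 := by
      gcongr
    have e5 : 0.99 * (10 * ‖S‖ ^ 2) * ‖S‖ / 10 ^ 6 * E ^ 2 = 9.9 / 10 ^ 6 * (‖S‖ ^ 3 * E ^ 2) := by ring
    have e6 : (1.298 * 1.0155 : ℝ) ^ 3 ≤ 3 := by norm_num
    have e7 : (1.298 * 1.0155) ^ 3 * (‖S‖ ^ 3 * E ^ 2) * (1 / 10 ^ 12) ≤
        3 * (‖S‖ ^ 3 * E ^ 2) * (1 / 10 ^ 12) := by gcongr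
    rw [e2] at e1
    rw [e5] at e4
    linarith
  · have e1 : (ut * (starRingEnd ℂ) st).re ≤ ‖ut‖ * ‖st‖ := by
      have := Complex.re_le_norm (ut * (starRingEnd ℂ) st)
      rwa [norm_mul, RCLike.norm_conj] at this
    have e2 : ‖ut‖ * ‖st‖ ≤ ‖ut‖ * (1.0155 * ‖S‖ * E) := mul_le_mul_of_nonneg_left c2 (norm_nonneg _)
    have e3 : 0.99 * δ * ‖S‖ / 10 ^ 6 * E ^ 2 ≤ ‖ut‖ * (1.0155 * ‖S‖ * E) := by linarith
    have e4 : 0 < 1.0155 * ‖S‖ * E := by positivity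
    have e5 : 0.97 * δ * E / 10 ^ 6 * (1.0155 * ‖S‖ * E) ≤ ‖ut‖ * (1.0155 * ‖S‖ * E) := by
      refine le_trans ?_ e3
      have : 0 ≤ δ * ‖S‖ * E ^ 2 := by positivity
      have e6 : 0.97 * δ * E / 10 ^ 6 * (1.0155 * ‖S‖ * E) =
          0.97 * 1.0155 / 10 ^ 6 * (δ * ‖S‖ * E ^ 2) := by ring
      have e7 : 0.99 * δ * ‖S‖ / 10 ^ 6 * E ^ 2 = 0.99 / 10 ^ 6 * (δ * ‖S‖ * E ^ 2) := by ring
      rw [e6, e7]
      apply mul_le_mul_of_nonneg_right _ this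
      norm_num
    exact le_of_mul_le_mul_right e5 e4

/-- polar form from the factors -/
theorem polar {w A B C : ℂ} {c β : ℝ} (hc : 0 ≤ c) (hw : w = c * (A * B * C * exp (β * I))) :
    w = ‖w‖ * exp (((arg C + β + arg B + arg A : ℝ) : ℂ) * I) := by
  have hA := Complex.norm_mul_exp_arg_mul_I A
  have hB := Complex.norm_mul_exp_arg_mul_I B
  have hC := Complex.norm_mul_exp_arg_mul_I C
  have h1 : ‖w‖ = c * ‖A‖ * ‖B‖ * ‖C‖ := by
    rw [hw, norm_mul, norm_mul, norm_mul, norm_mul, Complex.norm_real, Real.norm_of_nonneg hc,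
      Complex.norm_exp_ofReal_mul_I]
    ring
  rw [h1]
  conv_lhs => rw [hw, ← hA, ← hB, ← hC]
  push_cast
  rw [show ((arg C : ℂ) + β + arg B + arg A) * I = arg A * I + arg B * I + arg C * I + β * I by ring,
    Complex.exp_add, Complex.exp_add, Complex.exp_add]
  ring

/-- choice of the multiple of `2 π` -/
theorem window {θ Δ L H : ℝ} (h : L + (2 * Real.pi + 2 * Δ) ≤ H) :
    ∃ k : ℤ, L ≤ θ - Δ + 2 * Real.pi * k ∧ θ + Δ + 2 * Real.pi * k ≤ H := by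
  have hpi := Real.pi_pos
  refine ⟨⌈(L - (θ - Δ)) / (2 * Real.pi)⌉, ?_, ?_⟩
  · have h1 := Int.le_ceil ((L - (θ - Δ)) / (2 * Real.pi))
    rw [div_le_iff₀ (by positivity)] at h1
    linarith
  · have h1 := Int.ceil_lt_add_one ((L - (θ - Δ)) / (2 * Real.pi))
    have h2 : (⌈(L - (θ - Δ)) / (2 * Real.pi)⌉ : ℝ) * (2 * Real.pi) <
        ((L - (θ - Δ)) / (2 * Real.pi) + 1) * (2 * Real.pi) :=
      mul_lt_mul_of_pos_right h1 (by positivity)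
    have h3 : ((L - (θ - Δ)) / (2 * Real.pi) + 1) * (2 * Real.pi) = (L - (θ - Δ)) + 2 * Real.pi := by
      field_simp
    rw [h3] at h2
    linarith

/-- the phases at the two ends differ by more than a full turn -/
theorem range_psi (hal : 0.632 < al) (hal' : al < 0.6321) (hbe : 0.948 < be) {r tL tH : ℝ}
    {uL uH ZL ZH : ℂ} {argA argB : ℝ} {argA' argB' c : ℝ} {Δ : ℝ} (hΔ : Δ ≤ 1 / 10)
    (hr : 0 < r) (hL0 : 0 < ‖uL‖) (hH0 : 0 < ‖uH‖) (hrat : 484000 * ‖uL‖ ≤ ‖uH‖)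
    (hL : ‖uL‖ * Real.exp ZL.re = r) (hH : ‖uH‖ * Real.exp ZH.re = r)
    (eL : ‖ZL - lam * tL‖ ≤ 1 / 1000) (eH : ‖ZH - lam * tH‖ ≤ 1 / 1000)
    (a1 : |argA| ≤ Real.pi / 2) (a2 : |argB| ≤ Real.pi / 2) (a3 : |argA'| ≤ Real.pi / 2)
    (a4 : |argB'| ≤ Real.pi / 2) :
    (c + argB' + argA' + ZH.im) + (2 * Real.pi + 2 * Δ) ≤ c + argB + argA + ZL.im := by
  have hpi : Real.pi < 3.1416 := Real.pi_lt_d4
  have e13 : Real.exp 13 ≤ 484000 := by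
    have h1 : Real.exp 1 < 2.7182818286 := Real.exp_one_lt_d9
    have h2 : Real.exp 13 = Real.exp 1 ^ 13 := by
      rw [← Real.exp_nat_mul]
      norm_num
    rw [h2]
    calc Real.exp 1 ^ 13 ≤ 2.7182818286 ^ 13 := pow_le_pow_left₀ (Real.exp_pos _).le h1.le 13
      _ ≤ 484000 := by norm_num
  have h1 : Real.exp ZL.re = Real.exp ZH.re * (‖uH‖ / ‖uL‖) := by
    field_simp
    rw [mul_comm, hL, mul_comm, hH]
  have h2 : Real.exp ZH.re * Real.exp 13 ≤ Real.exp ZL.re := by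
    rw [h1]
    apply mul_le_mul_of_nonneg_left _ (Real.exp_pos _).le
    rw [le_div_iff₀ hL0]
    exact (mul_le_mul_of_nonneg_right e13 hL0.le).trans hrat
  rw [← Real.exp_add, Real.exp_le_exp] at h2
  have r1 := Complex.abs_re_le_norm (ZL - lam * tL)
  have r2 := Complex.abs_re_le_norm (ZH - lam * tH)
  have i1 := Complex.abs_im_le_norm (ZL - lam * tL)
  have i2 := Complex.abs_im_le_norm (ZH - lam * tH)
  rw [Complex.sub_re, Complex.re_mul_ofReal, lam_re] at r1 r2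
  rw [Complex.sub_im, Complex.im_mul_ofReal, lam_im] at i1 i2
  have r1' := abs_le.1 (r1.trans eL)
  have r2' := abs_le.1 (r2.trans eH)
  have i1' := abs_le.1 (i1.trans eL)
  have i2' := abs_le.1 (i2.trans eH)
  have k1 : 12.99 ≤ al * (tL - tH) := by linarith [r1'.1, r1'.2, r2'.1, r2'.2]
  have k2 : 20 ≤ tL - tH := by
    by_contra hcon
    push Not at hcon
    have hpos : 0 < tL - tH := by
      by_contra h0
      push Not at h0
      have : al * (tL - tH) ≤ 0 := mul_nonpos_of_nonneg_of_nonpos (by linarith) h0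
      linarith
    have : al * (tL - tH) ≤ 0.6321 * 20 := mul_le_mul hal'.le hcon.le hpos.le (by norm_num)
    linarith
  have k3 : 0.948 * 20 ≤ be * (tL - tH) := mul_le_mul hbe.le k2 (by norm_num) (by linarith)
  have b1 := abs_le.1 a1
  have b2 := abs_le.1 a2
  have b3 := abs_le.1 a3
  have b4 := abs_le.1 a4
  linarith [i1'.1, i1'.2, i2'.1, i2'.2, b1.1, b2.1, b3.2, b4.2]

end Run7.h550.SY
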