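import Pool.Agent.Run7.h874.Iface

/-!
# General tools for the hub passages (helper550)
-/

set_option autoImplicit false

namespace Run7.h550.SY

open Set Filter Topology Function

/-! ### T0: selection of a sub-interval -/

theorem sel {f : ℝ → ℝ} {a b c d : ℝ} (hab : a ≤ b) (hf : ContinuousOn f (Icc a b))
    (ha : f a ≤ c) (hb : d ≤ f b) (hcd : c < d) :
    ∃ a' b' : ℝ, a ≤ a' ∧ a' < b' ∧ b' ≤ b ∧ f a' = c ∧ f b' = d ∧
      ∀ p ∈ Icc a' b', c ≤ f p ∧ f p ≤ d := by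
  have hS : IsClosed (Icc a b ∩ f ⁻¹' Ici d) := hf.preimage_isClosed_of_isClosed isClosed_Icc isClosed_Ici
  have hSne : (Icc a b ∩ f ⁻¹' Ici d).Nonempty := ⟨b, ⟨hab, le_rfl⟩, hb⟩
  have hSbd : BddBelow (Icc a b ∩ f ⁻¹' Ici d) := ⟨a, fun x hx => hx.1.1⟩
  have hb' := hS.csInf_mem hSne hSbd
  set b' := sInf (Icc a b ∩ f ⁻¹' Ici d) with hb'def
  have hlt : ∀ x ∈ Icc a b, x < b' → f x < d := by
    intro x hx hxb
    by_contra h
    exact absurd (csInf_le hSbd ⟨hx, not_lt.1 h⟩) (not_le.2 hxb)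
  have hab' : a < b' := by
    rcases hb'.1.1.lt_or_eq with h | h
    · exact h
    · exfalso
      have := hb'.2
      rw [mem_preimage, mem_Ici, ← h] at this
      linarith
  have hfb' : f b' = d := by
    refine le_antisymm ?_ hb'.2
    have h1 : Tendsto f (𝓝[Ico a b'] b') (𝓝 (f b')) :=
      (hf b' hb'.1).mono_left (nhdsWithin_mono _ fun x hx => ⟨hx.1, hx.2.le.trans hb'.1.2⟩)
    have : (𝓝[Ico a b'] b').NeBot := by
      rw [nhdsWithin_Ico_eq_nhdsLT hab']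
      infer_instance
    refine le_of_tendsto h1 ?_
    filter_upwards [self_mem_nhdsWithin] with x hx
    exact (hlt x ⟨hx.1, hx.2.le.trans hb'.1.2⟩ hx.2).le
  have hf' : ContinuousOn f (Icc a b') := hf.mono (Icc_subset_Icc le_rfl hb'.1.2)
  have hR : IsClosed (Icc a b' ∩ f ⁻¹' Iic c) := hf'.preimage_isClosed_of_isClosed isClosed_Icc isClosed_Iic
  have hRne : (Icc a b' ∩ f ⁻¹' Iic c).Nonempty := ⟨a, ⟨le_rfl, hab'.le⟩, ha⟩
  have hRbd : BddAbove (Icc a b' ∩ f ⁻¹' Iic c) := ⟨b', fun x hx => hx.1.2⟩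
  have ha' := hR.csSup_mem hRne hRbd
  set a' := sSup (Icc a b' ∩ f ⁻¹' Iic c) with ha'def
  have hgt : ∀ x ∈ Icc a b', a' < x → c < f x := by
    intro x hx hxb
    by_contra h
    exact absurd (le_csSup hRbd ⟨hx, not_lt.1 h⟩) (not_le.2 hxb)
  have hab'' : a' < b' := by
    rcases ha'.1.2.lt_or_eq with h | h
    · exact h
    · exfalso
      have := ha'.2
      rw [mem_preimage, mem_Iic, h] at this
      linarith
  have hfa' : f a' = c := by
    refine le_antisymm ha'.2 ?_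
    have h1 : Tendsto f (𝓝[Ioc a' b'] a') (𝓝 (f a')) :=
      (hf' a' ha'.1).mono_left (nhdsWithin_mono _ fun x hx => ⟨ha'.1.1.trans hx.1.le, hx.2⟩)
    have : (𝓝[Ioc a' b'] a').NeBot := by
      rw [nhdsWithin_Ioc_eq_nhdsGT hab'']
      infer_instance
    refine ge_of_tendsto h1 ?_
    filter_upwards [self_mem_nhdsWithin] with x hx
    exact (hgt x ⟨ha'.1.1.trans hx.1.le, hx.2⟩ hx.1).le
  refine ⟨a', b', ha'.1.1, hab'', hb'.1.2, hfa', hfb', fun p hp => ⟨?_, ?_⟩⟩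
  · rcases hp.1.lt_or_eq with h | h
    · exact (hgt p ⟨ha'.1.1.trans hp.1, hp.2⟩ h).le
    · rw [← h, hfa']
  · rcases hp.2.lt_or_eq with h | h
    · exact (hlt p ⟨ha'.1.1.trans hp.1, hp.2.trans hb'.1.2⟩ h).le
    · rw [h, hfb']

theorem selC {f : ℝ → ℝ} {a b c d : ℝ} (hab : a ≤ b) (hf : ContinuousOn f (Icc a b))
    (h : Run7.h874.Cross f a b c d) (hcd : c < d) :
    ∃ a' b' : ℝ, a ≤ a' ∧ a' < b' ∧ b' ≤ b ∧ Run7.h874.Ends f a' b' c d ∧
      ∀ p ∈ Icc a' b', c ≤ f p ∧ f p ≤ d := by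
  rcases h with ⟨h1, h2⟩ | ⟨h1, h2⟩
  · obtain ⟨a', b', e1, e2, e3, e4, e5, e6⟩ := sel hab hf h1 h2 hcd
    exact ⟨a', b', e1, e2, e3, Or.inl ⟨e4, e5⟩, e6⟩
  · obtain ⟨a', b', e1, e2, e3, e4, e5, e6⟩ := sel (f := fun x => - f x) (c := -d) (d := -c) hab
      hf.neg (neg_le_neg h1) (neg_le_neg h2) (neg_lt_neg hcd)
    exact ⟨a', b', e1, e2, e3, Or.inr ⟨neg_inj.1 e4, neg_inj.1 e5⟩, fun p hp =>
      ⟨neg_le_neg_iff.1 (e6 p hp).2, neg_le_neg_iff.1 (e6 p hp).1⟩⟩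

/-! ### T1: barriers -/

/-- finitely many functions that are `≤ 0` at `0` and strictly decreasing whenever they vanish
while all are `≤ 0` -/
theorem barrier {ι : Type} [Finite ι] (f f' : ι → ℝ → ℝ) (T : ℝ)
    (hf : ∀ i, ContinuousOn (f i) (Icc 0 T))
    (hd : ∀ i, ∀ t ∈ Ico 0 T, HasDerivWithinAt (f i) (f' i t) (Ioi t) t)
    (h0 : ∀ i, f i 0 ≤ 0)
    (h : ∀ t ∈ Ico 0 T, (∀ s ∈ Icc 0 t, ∀ i, f i s ≤ 0) → ∀ i, f i t = 0 → f' i t < 0) :
    ∀ t ∈ Icc 0 T, ∀ i, f i t ≤ 0 := by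
  intro t ht
  have hT : 0 ≤ T := ht.1.trans ht.2
  have hcl : IsClosed ({t | ∀ s ∈ Icc 0 t, ∀ i, f i s ≤ 0} ∩ Icc 0 T) := by
    rw [← isSeqClosed_iff_isClosed]
    intro x y hx hxy
    have hy : y ∈ Icc 0 T := isClosed_Icc.mem_of_tendsto hxy (Eventually.of_forall fun n => (hx n).2)
    refine ⟨fun s hs i => ?_, hy⟩
    rcases hs.2.lt_or_eq with h1 | h1
    · obtain ⟨n, hn⟩ := (hxy.eventually (lt_mem_nhds h1)).exists
      exact (hx n).1 s ⟨hs.1, hn.le⟩ i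
    · have h2 : Tendsto (fun n => f i (x n)) atTop (𝓝 (f i y)) := by
        have := (hf i y hy).tendsto
        exact this.comp (tendsto_nhdsWithin_iff.2 ⟨hxy, Eventually.of_forall fun n => (hx n).2⟩)
      rw [h1]
      exact le_of_tendsto h2 (Eventually.of_forall fun n => (hx n).1 _ ⟨(hx n).2.1, le_rfl⟩ i)
  have key := hcl.Icc_subset_of_forall_exists_gt (a := 0) (b := T)
    (by
      intro s hs i
      have : s = 0 := le_antisymm hs.2 hs.1
      rw [this]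
      exact h0 i) ?_
  · exact fun i => key ht t ⟨ht.1, le_rfl⟩ i
  · intro x hx y hy
    have hev : ∀ᶠ z in 𝓝[>] x, ∀ i, f i z ≤ 0 := by
      rw [eventually_all]
      intro i
      rcases (hx.1 x ⟨hx.2.1, le_rfl⟩ i).lt_or_eq with h1 | h1
      · have h2 : ContinuousWithinAt (f i) (Ioi x) x := (hd i x hx.2).continuousWithinAt
        exact (h2.eventually (gt_mem_nhds h1)).mono fun z hz => hz.le
      · have h2 := h x hx.2 hx.1 i h1
        have h3 := (hd i x hx.2)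
        rw [hasDerivWithinAt_iff_tendsto_slope' (show x ∉ Ioi x by simp)] at h3
        have h4 := h3.eventually (gt_mem_nhds h2)
        filter_upwards [h4, self_mem_nhdsWithin] with z hz hzx
        rw [slope_def_field, h1, sub_zero] at hz
        have : 0 < z - x := sub_pos.2 hzx
        by_contra hcon
        push Not at hcon
        exact absurd hz (not_lt.2 (div_nonneg hcon.le this.le))
    have hev2 : ∀ᶠ z in 𝓝[>] x, z ∈ Ioc x y := Ioc_mem_nhdsGT hy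
    obtain ⟨w, hw⟩ := (mem_nhdsGT_iff_exists_Ioo_subset' (show x < x + 1 by linarith)).1 (hev.and hev2)
    obtain ⟨hw1, hw2⟩ := hw
    have hm : (x + w) / 2 ∈ Ioo x w := ⟨by have := hw1; simp only [mem_Ioi] at this; linarith,
      by have := hw1; simp only [mem_Ioi] at this; linarith⟩
    refine ⟨(x + w) / 2, ⟨fun s hs i => ?_, (hw2 hm).2⟩⟩
    rcases le_or_gt s x with h1 | h1
    · exact hx.1 s ⟨hs.1, h1⟩ i
    · exact (hw2 ⟨h1, hs.2.trans_lt hm.2⟩).1 i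

/-! ### T2: tube lemma -/

section tube

/-- parameters whose orbit leaves the tube through the top -/
def Otop (Y : ℝ → ℝ → ℝ) (T D : ℝ) : Set ℝ :=
  {p | ∃ t ∈ Icc 0 T, D < Y t p ∧ ∀ s ∈ Icc 0 t, -D < Y s p}

variable {Y : ℝ → ℝ → ℝ} {a b T D : ℝ}

theorem ev_all (hY : Continuous (uncurry Y)) {t p D : ℝ} (h : ∀ s ∈ Icc 0 t, D < Y s p) :
    ∀ᶠ q in 𝓝 p, ∀ s ∈ Icc 0 t, D < Y s q := by
  refine isCompact_Icc.eventually_forall_of_forall_eventually fun s hs => ?_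
  have h1 : Continuous fun z : ℝ × ℝ => Y z.2 z.1 := hY.comp (continuous_snd.prodMk continuous_fst)
  exact h1.continuousAt.eventually (lt_mem_nhds (h s hs))

theorem Otop_open (hY : Continuous (uncurry Y)) : IsOpen (Otop Y T D) := by
  rw [isOpen_iff_mem_nhds]
  rintro p ⟨t, ht, h1, h2⟩
  have h3 : Continuous fun q => Y t q := hY.comp (continuous_const.prodMk continuous_id)
  filter_upwards [h3.continuousAt.eventually (lt_mem_nhds h1), ev_all hY h2] with q hq1 hq2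
  exact ⟨t, ht, hq1, hq2⟩

theorem Otop_mem (hY : Continuous (uncurry Y)) (hD : 0 < D) {p : ℝ}
    (hcr : ∀ t ∈ Ico 0 T, (∀ s ∈ Icc 0 t, |Y s p| ≤ D) →
      (Y t p = D → ∃ᶠ s in 𝓝[>] t, D < Y s p) ∧ (Y t p = -D → ∃ᶠ s in 𝓝[>] t, Y s p < -D))
    {t : ℝ} (ht : t ∈ Ico 0 T) (h : ∀ s ∈ Icc 0 t, |Y s p| ≤ D) (hYt : Y t p = D) :
    p ∈ Otop Y T D := by
  have hYp : Continuous fun s => Y s p := hY.comp (continuous_id.prodMk continuous_const)
  have h1 : ∀ s ∈ Icc 0 t, -D < Y s p := by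
    intro s hs
    rcases (abs_le.1 (h s hs)).1.lt_or_eq with h1 | h1
    · exact h1
    exfalso
    have hst : s < t := by
      rcases hs.2.lt_or_eq with h2 | h2
      · exact h2
      · rw [h2, hYt] at h1
        linarith
    have h2 := (hcr s ⟨hs.1, hst.trans ht.2⟩ fun r hr => h r ⟨hr.1, hr.2.trans hs.2⟩).2 h1.symm
    obtain ⟨r, hr1, hr2⟩ := (h2.and_eventually (Ioo_mem_nhdsGT hst)).exists
    have h3 := (abs_le.1 (h r ⟨hs.1.trans hr2.1.le, hr2.2.le⟩)).1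
    linarith
  have h2 := (hcr t ht h).1 hYt
  have h3 : ∀ᶠ s in 𝓝 t, -D < Y s p := hYp.continuousAt.eventually (lt_mem_nhds (by
    show -D < Y t p
    rw [hYt]; linarith))
  obtain ⟨ε, hε, hball⟩ := Metric.eventually_nhds_iff.1 h3
  obtain ⟨r, ⟨hr1, hr2⟩, hr3⟩ := ((h2.and_eventually (Ioo_mem_nhdsGT ht.2)).and_eventually
    (Ioo_mem_nhdsGT (show t < t + ε by linarith))).exists
  refine ⟨r, ⟨ht.1.trans hr2.1.le, hr2.2.le⟩, hr1, fun s hs => ?_⟩
  rcases le_or_gt s t with h4 | h4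
  · exact h1 s ⟨hs.1, h4⟩
  · refine hball ?_
    rw [Real.dist_eq, abs_of_pos (by linarith)]
    linarith [hs.2, hr3.2]

theorem neg_cr {p : ℝ}
    (hcr : ∀ t ∈ Ico 0 T, (∀ s ∈ Icc 0 t, |Y s p| ≤ D) →
      (Y t p = D → ∃ᶠ s in 𝓝[>] t, D < Y s p) ∧ (Y t p = -D → ∃ᶠ s in 𝓝[>] t, Y s p < -D)) :
    ∀ t ∈ Ico 0 T, (∀ s ∈ Icc 0 t, |(fun s p => - Y s p) s p| ≤ D) →
      ((fun s p => - Y s p) t p = D → ∃ᶠ s in 𝓝[>] t, D < (fun s p => - Y s p) s p) ∧
      ((fun s p => - Y s p) t p = -D → ∃ᶠ s in 𝓝[>] t, (fun s p => - Y s p) s p < -D) := by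
  intro t ht h
  have h1 := hcr t ht (fun s hs => by have := h s hs; simpa using this)
  refine ⟨fun h2 => ?_, fun h2 => ?_⟩
  · refine (h1.2 (by simp only at h2; linarith)).mono fun s hs => ?_
    simp only
    linarith
  · refine (h1.1 (by simp only at h2; linarith)).mono fun s hs => ?_
    simp only
    linarith

theorem tubeA (hY : Continuous (uncurry Y)) (hD : 0 < D) {p : ℝ}
    (hcr : ∀ t ∈ Ico 0 T, (∀ s ∈ Icc 0 t, |Y s p| ≤ D) →
      (Y t p = D → ∃ᶠ s in 𝓝[>] t, D < Y s p) ∧ (Y t p = -D → ∃ᶠ s in 𝓝[>] t, Y s p < -D))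
    (h1 : p ∉ Otop Y T D) (h2 : p ∉ Otop (fun s p => - Y s p) T D) :
    ∀ t ∈ Icc 0 T, |Y t p| ≤ D := by
  have hYp : Continuous fun s => Y s p := hY.comp (continuous_id.prodMk continuous_const)
  by_contra hcon
  push Not at hcon
  obtain ⟨t1, ht1, hYt1⟩ := hcon
  set B := {t | t ∈ Icc 0 T ∧ D < |Y t p|} with hB
  have hBne : B.Nonempty := ⟨t1, ht1, hYt1⟩
  have hBbd : BddBelow B := ⟨0, fun x hx => hx.1.1⟩
  set t0 := sInf B with ht0
  have ht00 : 0 ≤ t0 := le_csInf hBne fun x hx => hx.1.1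
  have ht01 : t0 ≤ t1 := csInf_le hBbd ⟨ht1, hYt1⟩
  have hlt : ∀ s, 0 ≤ s → s < t0 → |Y s p| ≤ D := by
    intro s hs hst
    by_contra h
    push Not at h
    exact absurd (csInf_le hBbd ⟨⟨hs, (hst.le.trans ht01).trans ht1.2⟩, h⟩) (not_le.2 hst)
  have hat : |Y t0 p| ≤ D := by
    rcases ht00.lt_or_eq with h | h
    · have h3 : Tendsto (fun s => |Y s p|) (𝓝[Ico 0 t0] t0) (𝓝 (|Y t0 p|)) :=
        (hYp.abs.continuousAt).mono_left nhdsWithin_le_nhds
      have : (𝓝[Ico 0 t0] t0).NeBot := by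
        rw [nhdsWithin_Ico_eq_nhdsLT h]
        infer_instance
      refine le_of_tendsto h3 ?_
      filter_upwards [self_mem_nhdsWithin] with x hx
      exact hlt x hx.1 hx.2
    · by_contra hc
      push Not at hc
      rw [← h] at hc
      rcases lt_abs.1 hc with h4 | h4
      · refine h1 ⟨0, ⟨le_rfl, ht00.trans (ht01.trans ht1.2)⟩, h4, fun s hs => ?_⟩
        have : s = 0 := le_antisymm hs.2 hs.1
        rw [this]
        linarith
      · refine h2 ⟨0, ⟨le_rfl, ht00.trans (ht01.trans ht1.2)⟩, h4, fun s hs => ?_⟩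
        have : s = 0 := le_antisymm hs.2 hs.1
        rw [this]
        linarith
  have hle : ∀ s ∈ Icc 0 t0, |Y s p| ≤ D := by
    intro s hs
    rcases hs.2.lt_or_eq with h | h
    · exact hlt s hs.1 h
    · rw [h]
      exact hat
  have hge : D ≤ |Y t0 p| := by
    by_contra h
    push Not at h
    have h3 := hYp.abs.continuousAt.eventually (gt_mem_nhds h)
    obtain ⟨ε, hε, hε'⟩ := Metric.eventually_nhds_iff.1 h3
    obtain ⟨x, hx, hx'⟩ := exists_lt_of_csInf_lt hBne (show sInf B < t0 + ε by rw [← ht0]; linarith)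
    have h4 : t0 ≤ x := csInf_le hBbd hx
    have h5 := hε' (y := x) (by rw [Real.dist_eq, abs_of_nonneg (by linarith)]; linarith)
    exact absurd hx.2 (not_lt.2 h5.le)
  have htT : t0 ∈ Ico 0 T := by
    refine ⟨ht00, ?_⟩
    rcases ht01.lt_or_eq with h | h
    · exact h.trans_le ht1.2
    · rw [← h] at hYt1
      linarith
  rcases abs_choice (Y t0 p) with h3 | h3
  · exact h1 (Otop_mem hY hD hcr htT hle (by rw [← h3]; exact le_antisymm hat hge))
  · refine h2 (Otop_mem (Y := fun s p => - Y s p) ?_ hD (neg_cr hcr) htT ?_ ?_)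
    · exact hY.neg
    · intro s hs
      simpa using hle s hs
    · rw [← h3]
      exact le_antisymm hat hge

theorem tube1 (hY : Continuous (uncurry Y)) (hab : a ≤ b) (hT : 0 < T) (hD : 0 < D)
    (ha : Y 0 a ≤ -D) (hb : D ≤ Y 0 b)
    (hcr : ∀ p ∈ Icc a b, ∀ t ∈ Ico 0 T, (∀ s ∈ Icc 0 t, |Y s p| ≤ D) →
      (Y t p = D → ∃ᶠ s in 𝓝[>] t, D < Y s p) ∧ (Y t p = -D → ∃ᶠ s in 𝓝[>] t, Y s p < -D)) :
    ∃ a' b' : ℝ, a ≤ a' ∧ a' < b' ∧ b' ≤ b ∧ Y T a' = -D ∧ Y T b' = D ∧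
      ∀ p ∈ Icc a' b', ∀ t ∈ Icc 0 T, |Y t p| ≤ D := by
  have hYn : Continuous (uncurry fun s p => - Y s p) := hY.neg
  have hOp := Otop_open (T := T) (D := D) hY
  have hOn := Otop_open (T := T) (D := D) hYn
  set Op := Otop Y T D with hOpdef
  set On := Otop (fun s p => - Y s p) T D with hOndef
  have hdis : ∀ p, p ∈ Op → p ∈ On → False := by
    rintro p ⟨t, ht, h1, h2⟩ ⟨t', ht', h1', h2'⟩
    rcases le_total t t' with h | h
    · have := h2' t ⟨ht.1, h⟩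
      linarith
    · have := h2 t' ⟨ht'.1, h⟩
      linarith
  have hbO : b ∈ Op := by
    rcases hb.lt_or_eq with h | h
    · refine ⟨0, ⟨le_rfl, hT.le⟩, h, fun s hs => ?_⟩
      have : s = 0 := le_antisymm hs.2 hs.1
      rw [this]
      linarith
    · refine Otop_mem hY hD (hcr b ⟨hab, le_rfl⟩) ⟨le_rfl, hT⟩ (fun s hs => ?_) h.symm
      have : s = 0 := le_antisymm hs.2 hs.1
      rw [this, ← h, abs_of_pos hD]
  have haO : a ∈ On := by
    rcases ha.lt_or_eq with h | h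
    · refine ⟨0, ⟨le_rfl, hT.le⟩, by linarith, fun s hs => ?_⟩
      have : s = 0 := le_antisymm hs.2 hs.1
      rw [this]
      linarith
    · refine Otop_mem hYn hD (neg_cr (hcr a ⟨le_rfl, hab⟩)) ⟨le_rfl, hT⟩ (fun s hs => ?_)
        (by show - Y 0 a = D; linarith)
      have : s = 0 := le_antisymm hs.2 hs.1
      rw [this]
      show |- Y 0 a| ≤ D
      rw [h, neg_neg, abs_of_pos hD]
  -- b'
  have hPne : (Op ∩ Icc a b).Nonempty := ⟨b, hbO, hab, le_rfl⟩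
  have hPbd : BddBelow (Op ∩ Icc a b) := ⟨a, fun x hx => hx.2.1⟩
  set b' := sInf (Op ∩ Icc a b) with hb'
  have hab' : a ≤ b' := le_csInf hPne fun x hx => hx.2.1
  have hb'b : b' ≤ b := csInf_le hPbd ⟨hbO, hab, le_rfl⟩
  have hacc : ∀ ε > 0, ∃ x ∈ Op, b' ≤ x ∧ x < b' + ε ∧ x ≤ b := by
    intro ε hε
    obtain ⟨x, hx, hx'⟩ := exists_lt_of_csInf_lt hPne (show sInf (Op ∩ Icc a b) < b' + ε by
      rw [← hb']; linarith)
    exact ⟨x, hx.1, csInf_le hPbd hx, hx', hx.2.2⟩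
  have hb'O : b' ∉ Op := by
    intro h
    have hne : a ≠ b' := fun h' => hdis a (h' ▸ h) haO
    have hlt : a < b' := lt_of_le_of_ne hab' hne
    obtain ⟨ε, hε, hball⟩ := Metric.isOpen_iff.1 hOp b' h
    have h1 : max a (b' - ε / 2) ∈ Op := hball (by
      rw [Metric.mem_ball, Real.dist_eq, abs_of_nonpos (by
        have : max a (b' - ε / 2) ≤ b' := max_le hab' (by linarith)
        linarith)]
      have : b' - ε / 2 ≤ max a (b' - ε / 2) := le_max_right _ _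
      linarith)
    have h2 : b' ≤ max a (b' - ε / 2) := csInf_le hPbd ⟨h1, le_max_left _ _,
      max_le hab (by linarith)⟩
    rcases le_max_iff.1 h2 with h3 | h3 <;> linarith
  have hb'N : b' ∉ On := by
    intro h
    obtain ⟨ε, hε, hball⟩ := Metric.isOpen_iff.1 hOn b' h
    obtain ⟨x, hx1, hx2, hx3, -⟩ := hacc ε hε
    exact hdis x hx1 (hball (by rw [Metric.mem_ball, Real.dist_eq, abs_of_nonneg (by linarith)]; linarith))
  -- a'
  have hNne : (On ∩ Icc a b').Nonempty := ⟨a, haO, le_rfl, hab'⟩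
  have hNbd : BddAbove (On ∩ Icc a b') := ⟨b', fun x hx => hx.2.2⟩
  set a' := sSup (On ∩ Icc a b') with ha'
  have ha'b' : a' ≤ b' := csSup_le hNne fun x hx => hx.2.2
  have haa' : a ≤ a' := le_csSup hNbd ⟨haO, le_rfl, hab'⟩
  have hacc' : ∀ ε > 0, ∃ x ∈ On, x ≤ a' ∧ a' - ε < x ∧ a ≤ x := by
    intro ε hε
    obtain ⟨x, hx, hx'⟩ := exists_lt_of_lt_csSup hNne (show a' - ε < sSup (On ∩ Icc a b') by
      rw [← ha']; linarith)
    exact ⟨x, hx.1, le_csSup hNbd hx, hx', hx.2.1⟩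
  have ha'N : a' ∉ On := by
    intro h
    have hne : a' ≠ b' := fun h' => hb'N (h' ▸ h)
    have hlt : a' < b' := lt_of_le_of_ne ha'b' hne
    obtain ⟨ε, hε, hball⟩ := Metric.isOpen_iff.1 hOn a' h
    have h1 : min b' (a' + ε / 2) ∈ On := hball (by
      have : a' ≤ min b' (a' + ε / 2) := le_min ha'b' (by linarith)
      rw [Metric.mem_ball, Real.dist_eq, abs_of_nonneg (by linarith)]
      have : min b' (a' + ε / 2) ≤ a' + ε / 2 := min_le_right _ _
      linarith)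
    have h2 : min b' (a' + ε / 2) ≤ a' := le_csSup hNbd ⟨h1, le_min hab' (by linarith),
      min_le_left _ _⟩
    rcases min_le_iff.1 h2 with h3 | h3 <;> linarith
  have hnoP : ∀ p ∈ Icc a' b', p ∉ Op := by
    intro p hp h
    rcases hp.2.lt_or_eq with h1 | h1
    · exact absurd (csInf_le hPbd ⟨h, haa'.trans hp.1, hp.2.trans hb'b⟩) (not_le.2 h1)
    · exact hb'O (h1 ▸ h)
  have hnoN : ∀ p ∈ Icc a' b', p ∉ On := by
    intro p hp h
    rcases hp.1.lt_or_eq with h1 | h1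
    · exact absurd (le_csSup hNbd ⟨h, haa'.trans hp.1, hp.2⟩) (not_le.2 h1)
    · exact ha'N (h1 ▸ h)
  have hall : ∀ p ∈ Icc a' b', ∀ t ∈ Icc 0 T, |Y t p| ≤ D := fun p hp =>
    tubeA hY hD (hcr p ⟨haa'.trans hp.1, hp.2.trans hb'b⟩) (hnoP p hp) (hnoN p hp)
  have hb'm : b' ∈ Icc a' b' := ⟨ha'b', le_rfl⟩
  have ha'm : a' ∈ Icc a' b' := ⟨le_rfl, ha'b'⟩
  have hYb : Y T b' = D := by
    by_contra hne
    have h1 : ∀ s ∈ Icc 0 T, -D < (fun s p => - Y s p) s b' := by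
      intro s hs
      have h2 := (abs_le.1 (hall b' hb'm s hs)).2
      rcases h2.lt_or_eq with h3 | h3
      · simp only
        linarith
      · exfalso
        rcases hs.2.lt_or_eq with h4 | h4
        · exact hb'O (Otop_mem hY hD (hcr b' ⟨hab', hb'b⟩) ⟨hs.1, h4⟩
            (fun r hr => hall b' hb'm r ⟨hr.1, hr.2.trans hs.2⟩) h3)
        · rw [h4] at h3
          exact hne h3
    obtain ⟨ε, hε, hball⟩ := Metric.eventually_nhds_iff.1 (ev_all hYn h1)
    obtain ⟨x, ⟨t, ht, hx0, -⟩, hx2, hx3, -⟩ := hacc ε hε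
    have h2 := hball (y := x) (by rw [Real.dist_eq, abs_of_nonneg (by linarith)]; linarith) t ht
    have h2' : -D < - Y t x := h2
    linarith
  have hYa : Y T a' = -D := by
    by_contra hne
    have h1 : ∀ s ∈ Icc 0 T, -D < Y s a' := by
      intro s hs
      have h2 := (abs_le.1 (hall a' ha'm s hs)).1
      rcases h2.lt_or_eq with h3 | h3
      · exact h3
      · exfalso
        rcases hs.2.lt_or_eq with h4 | h4
        · refine ha'N (Otop_mem hYn hD (neg_cr (hcr a' ⟨haa', ha'b'.trans hb'b⟩)) ⟨hs.1, h4⟩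
            (fun r hr => ?_) (by show - Y s a' = D; linarith))
          have := hall a' ha'm r ⟨hr.1, hr.2.trans hs.2⟩
          simpa using this
        · rw [h4] at h3
          exact hne h3.symm
    obtain ⟨ε, hε, hball⟩ := Metric.eventually_nhds_iff.1 (ev_all hY h1)
    obtain ⟨x, ⟨t, ht, hx0, -⟩, hx2, hx3, -⟩ := hacc' ε hε
    have h2 := hball (y := x) (by rw [Real.dist_eq, abs_of_nonpos (by linarith)]; linarith) t ht
    linarith
  refine ⟨a', b', haa', lt_of_le_of_ne ha'b' ?_, hb'b, hYa, hYb, hall⟩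
  intro h
  rw [h, hYb] at hYa
  linarith

theorem tube (hY : Continuous (uncurry Y)) (hab : a ≤ b) (hT : 0 < T) (hD : 0 < D)
    (h0 : Run7.h874.Cross (Y 0) a b (-D) D)
    (hcr : ∀ p ∈ Icc a b, ∀ t ∈ Ico 0 T, (∀ s ∈ Icc 0 t, |Y s p| ≤ D) →
      (Y t p = D → ∃ᶠ s in 𝓝[>] t, D < Y s p) ∧ (Y t p = -D → ∃ᶠ s in 𝓝[>] t, Y s p < -D)) :
    ∃ a' b' : ℝ, a ≤ a' ∧ a' < b' ∧ b' ≤ b ∧ Run7.h874.Ends (Y T) a' b' (-D) D ∧
      ∀ p ∈ Icc a' b', ∀ t ∈ Icc 0 T, |Y t p| ≤ D := by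
  rcases h0 with ⟨h1, h2⟩ | ⟨h1, h2⟩
  · obtain ⟨a', b', e1, e2, e3, e4, e5, e6⟩ := tube1 hY hab hT hD h1 h2 hcr
    exact ⟨a', b', e1, e2, e3, Or.inl ⟨e4, e5⟩, e6⟩
  · obtain ⟨a', b', e1, e2, e3, e4, e5, e6⟩ := tube1 (Y := fun s p => - Y s p) hY.neg hab hT hD
      (by show - Y 0 a ≤ -D; linarith) (by show D ≤ - Y 0 b; linarith)
      (fun p hp => neg_cr (hcr p hp))
    refine ⟨a', b', e1, e2, e3, Or.inr ⟨by linarith, by linarith⟩, fun p hp t ht => ?_⟩
    have := e6 p hp t ht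
    simpa using this

/-- a sign of the derivative gives the crossing hypotheses of `tube` -/
theorem freq_of_deriv {y : ℝ → ℝ} {y' t D : ℝ} (h : HasDerivAt y y' t) (hy : y t = D) (h0 : 0 < y') :
    ∃ᶠ s in 𝓝[>] t, D < y s := by
  have h3 := h.hasDerivWithinAt (s := Ioi t)
  rw [hasDerivWithinAt_iff_tendsto_slope' (show t ∉ Ioi t by simp)] at h3
  have h4 := h3.eventually (lt_mem_nhds h0)
  have h5 : ∀ᶠ s in 𝓝[>] t, D < y s := by
    filter_upwards [h4, self_mem_nhdsWithin] with z hz hzx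
    rw [slope_def_field, hy] at hz
    have : 0 < z - t := sub_pos.2 hzx
    have := (div_pos_iff_of_pos_right this).1 hz
    linarith
  exact h5.frequently

end tube

end Run7.h550.SY
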